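import Pool.Agent.Lib.MP_5d7b92_nt.SS.Defs

/-!
# CR: the shift H (Chinese remainder theorem)

PROOF. M = ∏_{w < p ≤ z} p (product over (PR z).filter (w < ·)), P = `primorial w` (or ∏_{p ∈ PR w} p); P, M coprime, d coprime to M (the primes dividing d are ≤ d ≤ w). Choose e with
d e = 1 mod M (`Nat.exists_mul_emod_eq_one_of_coprime`, or `ZMod.unitOfCoprime`/`Int.gcd`-Bezout; M = 1 is trivial) and H₀ = 0 mod P, H₀ = h e mod M (`Nat.chineseRemainder`); H = H₀ + P M > 0.
For w < p ≤ z: p | M so d H = h mod p and p does not divide d: p | H iff p | d H iff p | h; p | k + H iff p | d k + d H iff p | d k + h. So p | k (k + H) iff p | k or p | d k + h.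
-/

open Finset

namespace Pool.Agent.Lib.MP_5d7b92_nt.SS

theorem exists_shift (w z d h : ℕ) (hw : 2 ≤ w) (hd : 1 ≤ d) (hdw : d ≤ w) :
    ∃ H : ℕ, 1 ≤ H ∧ (∀ p : ℕ, p.Prime → p ≤ w → p ∣ H) ∧
      ∀ p : ℕ, p.Prime → w < p → p ≤ z → (p ∣ H ↔ p ∣ h) ∧
        ∀ k : ℕ, (p ∣ k * (k + H) ↔ p ∣ k * (d * k + h)) := by
  obtain ⟨M, hM⟩ : ∃ M, M = ∏ p ∈ (PR z).filter (fun p => w < p), p := ⟨_, rfl⟩
  obtain ⟨P, hP⟩ : ∃ P, P = ∏ p ∈ PR w, p := ⟨_, rfl⟩
  have hM0 : 0 < M := by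
    rw [hM]
    exact prod_pos fun p hp => (mem_PR.1 (mem_filter.1 hp).1).2.pos
  have hP0 : 0 < P := by
    rw [hP]
    exact prod_pos fun p hp => (mem_PR.1 hp).2.pos
  have hcopP : Nat.Coprime P M := by
    rw [hP, hM]
    refine Nat.Coprime.prod_left fun p hp => Nat.Coprime.prod_right fun q hq => ?_
    obtain ⟨h1, h2⟩ := mem_PR.1 hp
    obtain ⟨h3, h4⟩ := mem_filter.1 hq
    exact (Nat.coprime_primes h2 (mem_PR.1 h3).2).2 (by omega)
  have hcopd : Nat.Coprime d M := by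
    rw [hM]
    refine Nat.Coprime.prod_right fun q hq => ?_
    obtain ⟨h3, h4⟩ := mem_filter.1 hq
    rw [Nat.coprime_comm, Nat.Prime.coprime_iff_not_dvd (mem_PR.1 h3).2]
    intro h5
    have := Nat.le_of_dvd hd h5
    omega
  -- the inverse of `d`
  obtain ⟨e, he⟩ : ∃ e : ℕ, d * e ≡ 1 [MOD M] := by
    rcases Nat.lt_or_ge 1 M with h1 | h1
    · obtain ⟨e, -, he⟩ := Nat.exists_mul_mod_eq_one_of_coprime hcopd h1
      refine ⟨e, ?_⟩
      unfold Nat.ModEq
      rw [he, Nat.mod_eq_of_lt h1]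
    · have h2 : M = 1 := by omega
      refine ⟨0, ?_⟩
      rw [h2]
      exact Nat.modEq_one
  obtain ⟨H₀, h01, h02⟩ := Nat.chineseRemainder hcopP 0 (h * e)
  refine ⟨H₀ + P * M, ?_, ?_, ?_⟩
  · have : 0 < P * M := Nat.mul_pos hP0 hM0
    omega
  · intro p hp hpw
    have h1 : p ∣ P := by
      rw [hP]
      exact dvd_prod_of_mem _ (mem_PR.2 ⟨hpw, hp⟩)
    have h2 : P ∣ H₀ := (Nat.modEq_zero_iff_dvd).1 h01
    exact (Nat.dvd_add (h1.trans h2) (h1.trans (dvd_mul_right _ _)))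
  · intro p hp hwp hpz
    have h1 : p ∣ M := by
      rw [hM]
      exact dvd_prod_of_mem _ (mem_filter.2 ⟨mem_PR.2 ⟨hpz, hp⟩, hwp⟩)
    have h2 : d * (H₀ + P * M) ≡ h [MOD p] := by
      have h3 : d * (H₀ + P * M) ≡ d * (h * e) [MOD M] := by
        refine Nat.ModEq.mul_left d ?_
        have h4 : H₀ + P * M ≡ H₀ + 0 [MOD M] :=
          Nat.ModEq.add_left _ ((Nat.modEq_zero_iff_dvd).2 (dvd_mul_left _ _))
        rw [add_zero] at h4
        exact h4.trans h02
      have h5 : d * (h * e) ≡ h [MOD M] := by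
        have h6 : d * (h * e) = h * (d * e) := by ring
        rw [h6]
        calc h * (d * e) ≡ h * 1 [MOD M] := Nat.ModEq.mul_left h he
          _ = h := mul_one h
      exact (h3.trans h5).of_dvd h1
    have hpd : ¬ p ∣ d := by
      intro h5
      have := Nat.le_of_dvd hd h5
      omega
    refine ⟨?_, ?_⟩
    · constructor
      · intro h5
        exact (h2.dvd_iff (dvd_refl p)).1 (h5.trans (dvd_mul_left _ _))
      · intro h5
        have h6 := (h2.dvd_iff (dvd_refl p)).2 h5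
        exact ((hp.dvd_mul).1 h6).resolve_left hpd
    · intro k
      rw [hp.dvd_mul, hp.dvd_mul]
      have h5 : p ∣ k + (H₀ + P * M) ↔ p ∣ d * k + h := by
        have h6 : d * (k + (H₀ + P * M)) ≡ d * k + h [MOD p] := by
          rw [mul_add]
          exact Nat.ModEq.add_left _ h2
        constructor
        · intro h7
          exact (h6.dvd_iff (dvd_refl p)).1 (h7.trans (dvd_mul_left _ _))
        · intro h7
          have h8 := (h6.dvd_iff (dvd_refl p)).2 h7
          exact ((hp.dvd_mul).1 h8).resolve_left hpd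
      rw [h5]

end Pool.Agent.Lib.MP_5d7b92_nt.SS
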