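import Pool.Agent.Lib.MP_5d7b92_nt.SS.Defs

/-!
# SB: Selberg's bound for k (k + H), with only the primes ≤ z of H in the singular factor

PROOF. As in PairSieve.lean (`pair_sieve`, `card_pairs_le`: there the left side is `siftedSum`), z = s². siftedSum (pairSieve K H z) = the left side (see hsift in `card_pairs_le`).
`Selberg.selberg_upper_bound` and `error_le`: ≤ K / Lsum + z^8. `Lsum_eq` expresses Lsum through kap H p for p | l | primorial z, p ≤ z; let H' = gcd(H, primorial z): for p ≤ z prime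
p | H' iff p | H, so kap H p = kap H' p there and Lsum = ∑ … kap H' …, ≥ φ(H')/H' (∑_{a ≤ s} 1/a)² by `main_sum_lower` H' s (primorial z) (2 | H'). φ(H')/H' = ∏_{p | H'} (1 - 1/p)
(`Sieve.div_totient_eq_prod_inv`) = ∏ over the primes p ≤ z dividing H.
-/

open Finset

namespace Pool.Agent.Lib.MP_5d7b92_nt.SS

open Pool.Agent.Lib.MP_5d7b92_nt.SieveLower Pool.Agent.Lib.MP_5d7b92_nt.Selberg

private theorem cmul_congr {c c' : ℕ → ℝ} {l : ℕ} (h : ∀ p : ℕ, p.Prime → p ∣ l → c p = c' p) :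
    cmulFun c l = cmulFun c' l := by
  show (if l = 0 then 0 else (l.primeFactorsList.map c).prod) =
    (if l = 0 then 0 else (l.primeFactorsList.map c').prod)
  split_ifs with h0
  · rfl
  · congr 1
    refine List.map_congr_left fun p hp => ?_
    exact h p (Nat.prime_of_mem_primeFactorsList hp) (Nat.dvd_of_mem_primeFactorsList hp)

theorem sifted_le (K H s : ℕ) (hs : 1 ≤ s) (hH : 1 ≤ H) (h2 : 2 ∣ H) :
    (((Ioc 0 K).filter (fun k => Nat.Coprime (primorial (s ^ 2)) (k * (k + H)))).card : ℝ) ≤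
      K * (∏ p ∈ (PR (s ^ 2)).filter (fun p => p ∣ H), (1 - (1 : ℝ) / p)⁻¹) /
        (∑ a ∈ Icc 1 s, (1 : ℝ) / a) ^ 2 + ((s : ℝ) ^ 2) ^ 8 := by
  obtain ⟨z, hz⟩ : ∃ z, z = s ^ 2 := ⟨_, rfl⟩
  have hz1 : 1 ≤ z := by
    rw [hz]
    exact Nat.one_le_pow _ _ hs
  rw [← hz]
  have hsift : (pairSieve K H z h2).siftedSum
      = (((Ioc 0 K).filter (fun n => Nat.Coprime (primorial z) (n * (n + H)))).card : ℝ) := by
    change ∑ k ∈ (Ioc 0 K).image (fun n => n * (n + H)),
      (if Nat.Coprime (primorial z) k then (1 : ℝ) else 0) = _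
    rw [Finset.sum_image (quad_injOn K H), Finset.card_filter]
    push_cast
    rfl
  rw [← hsift]
  have hsel := selberg_upper_bound (s := pairSieve K H z h2) hz1
  have herr := error_le K H z h2
  have hmass : (pairSieve K H z h2).totalMass = K := rfl
  rw [hmass] at hsel
  -- replace H by its part dividing the primorial
  obtain ⟨H', hH'⟩ : ∃ H', H' = Nat.gcd H (primorial z) := ⟨_, rfl⟩
  have hP0 := primorial_ne_zero z
  have hH'0 : H' ≠ 0 := by
    rw [hH']
    exact (Nat.gcd_pos_of_pos_left _ hH).ne'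
  have hdiv : ∀ p : ℕ, p.Prime → p ≤ z → (p ∣ H' ↔ p ∣ H) := by
    intro p hp hpz
    rw [hH']
    constructor
    · intro h
      exact h.trans (Nat.gcd_dvd_left _ _)
    · intro h
      exact Nat.dvd_gcd h (hp.dvd_primorial_iff.2 hpz)
  have hPR : H'.primeFactors = (PR z).filter (fun p => p ∣ H) := by
    ext p
    rw [Nat.mem_primeFactors, mem_filter, mem_PR]
    constructor
    · rintro ⟨h3, h4, -⟩
      have h5 : p ∣ primorial z := h4.trans (by
        rw [hH']
        exact Nat.gcd_dvd_right _ _)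
      have h6 := h3.dvd_primorial_iff.1 h5
      exact ⟨⟨h6, h3⟩, (hdiv p h3 h6).1 h4⟩
    · rintro ⟨⟨h3, h4⟩, h5⟩
      exact ⟨h4, (hdiv p h4 h3).2 h5, hH'0⟩
  rcases Nat.lt_or_ge z 2 with hz2 | hz2
  · -- z = 1, s = 1
    have hz1' : z = 1 := by omega
    have hs1 : s = 1 := by
      rcases Nat.lt_or_ge s 2 with h | h
      · omega
      · have h3 : 2 ^ 2 ≤ s ^ 2 := Nat.pow_le_pow_left h 2
        omega
    have hprod : ∏ p ∈ (PR z).filter (fun p => p ∣ H), (1 - (1 : ℝ) / p)⁻¹ = 1 := by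
      have : (PR z).filter (fun p => p ∣ H) = ∅ := by
        rw [filter_eq_empty_iff]
        intro p hp
        obtain ⟨h3, h4⟩ := mem_PR.1 hp
        have := h4.two_le
        omega
      rw [this, prod_empty]
    rw [hprod, hs1]
    have h3 : (pairSieve K H z h2).siftedSum ≤ K := by
      rw [hsift]
      have h4 : ((Ioc 0 K).filter (fun n => Nat.Coprime (primorial z) (n * (n + H)))).card ≤ K := by
        refine (card_filter_le _ _).trans ?_
        rw [Nat.card_Ioc]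
        omega
      exact_mod_cast h4
    refine h3.trans ?_
    simp
  have h2H' : 2 ∣ H' := (hdiv 2 Nat.prime_two hz2).2 h2
  have hL := main_sum_lower H' s (primorial z) hH'0 h2H' hP0 (by
    intro p hp hpz
    rw [← hz] at hpz
    exact hp.dvd_primorial_iff.2 hpz)
  rw [← hz] at hL
  have hLeq : Lsum (pairSieve K H z h2) z = ∑ l ∈ (primorial z).divisors with l ≤ z,
      cmulFun (fun p => (kap H' p : ℝ) / p) l *
        ∏ p ∈ l.primeFactors, (1 - (kap H' p : ℝ) / p)⁻¹ := by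
    rw [Lsum_eq]
    refine sum_congr rfl fun l hl => ?_
    obtain ⟨h3, -⟩ := mem_filter.1 hl
    have h4 := (Nat.mem_divisors.1 h3).1
    have hk : ∀ p : ℕ, p.Prime → p ∣ l → kap H p = kap H' p := by
      intro p hp hpl
      have h5 := hp.dvd_primorial_iff.1 (hpl.trans h4)
      unfold kap
      by_cases h6 : p ∣ H
      · rw [if_pos h6, if_pos ((hdiv p hp h5).2 h6)]
      · rw [if_neg h6, if_neg (fun h => h6 ((hdiv p hp h5).1 h))]
    have e1 : cmulFun (fun p => (kap H p : ℝ) / p) l = cmulFun (fun p => (kap H' p : ℝ) / p) l := by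
      refine cmul_congr fun p hp hpl => ?_
      rw [hk p hp hpl]
    rw [e1]
    congr 1
    refine prod_congr rfl fun p hp => ?_
    rw [hk p (Nat.prime_of_mem_primeFactors hp) (Nat.dvd_of_mem_primeFactors hp)]
  rw [← hLeq] at hL
  have hratio := Pool.Agent.Lib.Sieve.div_totient_eq_prod_inv H' hH'0
  rw [hPR] at hratio
  obtain ⟨G, hG⟩ : ∃ G : ℝ, G = ∏ p ∈ (PR z).filter (fun p => p ∣ H), (1 - (1 : ℝ) / p)⁻¹ :=
    ⟨_, rfl⟩
  rw [← hG] at hratio ⊢
  have hH'r : (0 : ℝ) < H' := by exact_mod_cast Nat.pos_of_ne_zero hH'0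
  have hφr : (0 : ℝ) < H'.totient := by
    exact_mod_cast Nat.totient_pos.2 (Nat.pos_of_ne_zero hH'0)
  have hG0 : 0 < G := by
    rw [← hratio]
    positivity
  have hinv : (H'.totient : ℝ) / H' = 1 / G := by
    rw [← hratio, one_div_div]
  rw [hinv] at hL
  have hh0 : 0 < ∑ a ∈ Icc 1 s, (1 : ℝ) / a := by
    have h3 : (1 : ℝ) / ((1 : ℕ) : ℝ) ≤ ∑ a ∈ Icc 1 s, (1 : ℝ) / a :=
      single_le_sum (f := fun a : ℕ => (1 : ℝ) / a) (fun a _ => by positivity)
        (mem_Icc.2 ⟨le_refl 1, hs⟩)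
    have h4 : (1 : ℝ) / ((1 : ℕ) : ℝ) = 1 := by norm_num
    rw [h4] at h3
    linarith
  obtain ⟨h, hh⟩ : ∃ h : ℝ, h = ∑ a ∈ Icc 1 s, (1 : ℝ) / a := ⟨_, rfl⟩
  rw [← hh] at hL hh0 ⊢
  have hLpos : 0 < 1 / G * h ^ 2 := by positivity
  have hmain : (K : ℝ) / Lsum (pairSieve K H z h2) z ≤ K * G / h ^ 2 := by
    calc (K : ℝ) / Lsum (pairSieve K H z h2) z ≤ K / (1 / G * h ^ 2) :=
          div_le_div_of_nonneg_left (Nat.cast_nonneg K) hLpos hL
      _ = K * G / h ^ 2 := by
          field_simp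
  have hz8 : (z : ℝ) ^ 8 = ((s : ℝ) ^ 2) ^ 8 := by
    rw [hz]
    push_cast
    rfl
  rw [← hz8]
  linarith

end Pool.Agent.Lib.MP_5d7b92_nt.SS
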