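import Pool.Agent.Lib.MP_5d7b92_nt.SS.CR
import Pool.Agent.Lib.MP_5d7b92_nt.SS.SB

/-!
# CS: the sieve bound for q and d q + h = d' q'

PROOF. s = ⌊K^(1/32)⌋ ≥ w, z = s² (as in `pair_sieve`: (s^2)^8 = s^16 ≤ √K, ∑_{a ≤ s} 1/a ≥ log K / 32, √K ≤ 16 K/(log K)^2 = `sqrt_le_aux`). H from `exists_shift w z d h`.
A q counted on the left has q ≤ z, or q' ≤ z (then d q + h = d' q' ≤ w z so q ≤ w z), or q > z and q' > z; then q is coprime to primorial z, and a prime w < p ≤ z dividing d q + h = d' q'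
divides d' (≤ w < p: no) or q' (prime > z: no). So q (q + H) is coprime to primorial z: primes p ≤ w divide H, so p | q (q+H) iff p | q: no; for w < p ≤ z use `exists_shift`.
Count ≤ z + w z + sifted ≤ 2 s^4 + ... ≤ 2√K + K ∏/(log K/32)² + √K. The product over the primes p ≤ z dividing H is at most `Sw w h` (p ≤ w, or w < p ≤ z and p | h; all factors ≥ 1,
`Finset.prod_le_prod_of_subset_of_one_le`), and Sw ≥ 1. Total ≤ C K Sw/(log K)², C = 1024 + 48 (K ≥ 2).
-/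

open Finset

namespace Pool.Agent.Lib.MP_5d7b92_nt.SS

private theorem fac_ge_one {p : ℕ} (hp : p.Prime) : 1 ≤ (1 - (1 : ℝ) / p)⁻¹ :=
  Pool.Agent.Lib.Sieve.one_le_fac hp

private theorem Sw_prime {w h p : ℕ} (hp : p ∈ PR w ∪ h.primeFactors) : p.Prime := by
  rcases mem_union.1 hp with h1 | h1
  · exact (mem_PR.1 h1).2
  · exact Nat.prime_of_mem_primeFactors h1

private theorem one_le_Sw (w h : ℕ) : 1 ≤ Sw w h := by
  unfold Sw
  exact Finset.one_le_prod fun p hp => fac_ge_one (Sw_prime hp)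

theorem cof_sieve : ∃ C : ℝ, 0 < C ∧ ∀ w d h K : ℕ, 2 ≤ w → 1 ≤ d → d ≤ w → 1 ≤ h → 2 ≤ K →
    (w : ℝ) ^ 32 ≤ K →
    (((Icc 1 K).filter (fun q => q.Prime ∧ ∃ d' ∈ Icc 1 w, (d * q + h) % d' = 0 ∧
      ((d * q + h) / d').Prime)).card : ℝ) ≤ C * Sw w h * K / (Real.log K) ^ 2 := by
  refine ⟨1072, by norm_num, fun w d h K hw hd hdw hh hK hwK => ?_⟩
  have hK0 : (0 : ℝ) ≤ K := Nat.cast_nonneg K
  have hK1 : (1 : ℝ) < K := by exact_mod_cast (by omega : 1 < K)
  have hlog : 0 < Real.log K := Real.log_pos hK1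
  obtain ⟨s, hs⟩ : ∃ s : ℕ, s = ⌊(K : ℝ) ^ (1 / 32 : ℝ)⌋₊ := ⟨_, rfl⟩
  have hws : w ≤ s := by
    rw [hs]
    refine Nat.le_floor ?_
    have h1 : ((w : ℝ) ^ 32) ^ (1 / 32 : ℝ) = w := by
      rw [← Real.rpow_natCast, ← Real.rpow_mul (Nat.cast_nonneg w)]
      norm_num
    rw [← h1]
    exact Real.rpow_le_rpow (by positivity) hwK (by norm_num)
  have hs1 : 1 ≤ s := by omega
  have hsle : (s : ℝ) ≤ (K : ℝ) ^ (1 / 32 : ℝ) := by
    rw [hs]
    exact Nat.floor_le (by positivity)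
  have hslt : (K : ℝ) ^ (1 / 32 : ℝ) < s + 1 := by
    rw [hs]
    exact Nat.lt_floor_add_one _
  have hs16 : (s : ℝ) ^ 16 ≤ Real.sqrt K := by
    calc (s : ℝ) ^ 16 ≤ ((K : ℝ) ^ (1 / 32 : ℝ)) ^ 16 := by gcongr
      _ = Real.sqrt K := by
        rw [← Real.rpow_natCast, ← Real.rpow_mul hK0, Real.sqrt_eq_rpow]
        norm_num
  have hlogs : Real.log K / 32 ≤ Real.log (s + 1) := by
    have h3 : Real.log ((K : ℝ) ^ (1 / 32 : ℝ)) ≤ Real.log (s + 1) := by
      apply Real.log_le_log _ hslt.le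
      positivity
    rw [Real.log_rpow (by linarith)] at h3
    linarith
  have hH : Real.log K / 32 ≤ ∑ a ∈ Icc 1 s, (1 : ℝ) / a := by
    have h3 := log_add_one_le_harmonic s
    have h4 : ((harmonic s : ℚ) : ℝ) = ∑ a ∈ Icc 1 s, (1 : ℝ) / a := by
      rw [harmonic_eq_sum_Icc]
      push_cast
      apply Finset.sum_congr rfl
      intro a _
      rw [one_div]
    rw [h4] at h3
    push_cast at h3
    linarith
  obtain ⟨z, hz⟩ : ∃ z, z = s ^ 2 := ⟨_, rfl⟩
  have hwz : w ≤ z := by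
    rw [hz]
    nlinarith
  obtain ⟨H, hH1, hHw, hHz⟩ := exists_shift w z d h hw hd hdw
  have h2H : 2 ∣ H := hHw 2 Nat.prime_two hw
  have hsift := sifted_le K H s hs1 hH1 h2H
  rw [← hz] at hsift
  -- the three cases
  have hsub : (Icc 1 K).filter (fun q => q.Prime ∧ ∃ d' ∈ Icc 1 w, (d * q + h) % d' = 0 ∧
      ((d * q + h) / d').Prime) ⊆ Icc 1 (w * z) ∪
      (Ioc 0 K).filter (fun k => Nat.Coprime (primorial z) (k * (k + H))) := by
    intro q hq
    obtain ⟨hq1, hqp, d', hd', hmod, hq'⟩ := mem_filter.1 hq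
    obtain ⟨hq2, hq3⟩ := mem_Icc.1 hq1
    obtain ⟨hd1', hd2'⟩ := mem_Icc.1 hd'
    obtain ⟨q', hq'd⟩ : ∃ q', q' = (d * q + h) / d' := ⟨_, rfl⟩
    rw [← hq'd] at hq'
    have heq : d * q + h = d' * q' := by
      rw [hq'd]
      exact (Nat.mul_div_cancel' (Nat.dvd_of_mod_eq_zero hmod)).symm
    rw [mem_union]
    have hqd : q ≤ d * q := Nat.le_mul_of_pos_left q hd
    by_cases h1 : q ≤ z
    · left
      have h3 : z ≤ w * z := Nat.le_mul_of_pos_left z (by omega)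
      exact mem_Icc.2 ⟨hq2, h1.trans h3⟩
    by_cases h2 : q' ≤ z
    · left
      have h3 : d' * q' ≤ w * z := Nat.mul_le_mul hd2' h2
      exact mem_Icc.2 ⟨hq2, by omega⟩
    right
    refine mem_filter.2 ⟨mem_Ioc.2 ⟨by omega, hq3⟩, ?_⟩
    rw [Nat.coprime_comm]
    refine Nat.coprime_of_dvd fun p hp hp1 hp2 => ?_
    have hpz := hp.dvd_primorial_iff.1 hp2
    rcases Nat.lt_or_ge w p with hwp | hwp
    · have h3 := ((hHz p hp hwp hpz).2 q).1 hp1
      rcases (hp.dvd_mul).1 h3 with h4 | h4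
      · have h5 := (Nat.prime_dvd_prime_iff_eq hp hqp).1 h4
        omega
      · rw [heq] at h4
        rcases (hp.dvd_mul).1 h4 with h5 | h5
        · have := Nat.le_of_dvd hd1' h5
          omega
        · have h6 := (Nat.prime_dvd_prime_iff_eq hp hq').1 h5
          omega
    · have h3 : p ∣ H := hHw p hp hwp
      have h4 : p ∣ q := by
        rcases (hp.dvd_mul).1 hp1 with h5 | h5
        · exact h5
        · exact (Nat.dvd_add_left h3).1 h5
      have h5 := (Nat.prime_dvd_prime_iff_eq hp hqp).1 h4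
      omega
  have hcard : (((Icc 1 K).filter (fun q => q.Prime ∧ ∃ d' ∈ Icc 1 w, (d * q + h) % d' = 0 ∧
      ((d * q + h) / d').Prime)).card : ℝ) ≤ (w * z : ℕ) +
      (((Ioc 0 K).filter (fun k => Nat.Coprime (primorial z) (k * (k + H)))).card : ℝ) := by
    have h3 := (card_le_card hsub).trans (card_union_le _ _)
    rw [Nat.card_Icc, Nat.add_sub_cancel] at h3
    exact_mod_cast h3
  have hprod : ∏ p ∈ (PR z).filter (fun p => p ∣ H), (1 - (1 : ℝ) / p)⁻¹ ≤ Sw w h := by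
    unfold Sw
    refine prod_le_prod_of_subset_of_one_le ?_ ?_ ?_
    · intro p hp
      obtain ⟨h3, h4⟩ := mem_filter.1 hp
      obtain ⟨h5, h6⟩ := mem_PR.1 h3
      rw [mem_union]
      rcases Nat.lt_or_ge w p with hwp | hwp
      · right
        exact Nat.mem_primeFactors.2 ⟨h6, ((hHz p h6 hwp h5).1).1 h4, by omega⟩
      · left
        exact mem_PR.2 ⟨hwp, h6⟩
    · intro p hp
      exact zero_le_one.trans (fac_ge_one (mem_PR.1 (mem_filter.1 hp).1).2)
    · intro p hp _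
      exact fac_ge_one (Sw_prime hp)
  have hS1 := one_le_Sw w h
  obtain ⟨G, hG⟩ : ∃ G : ℝ, G = Sw w h := ⟨_, rfl⟩
  rw [← hG] at hprod hS1 ⊢
  have hh0 : 0 < Real.log K / 32 := by positivity
  have hmain : K * (∏ p ∈ (PR z).filter (fun p => p ∣ H), (1 - (1 : ℝ) / p)⁻¹) /
      (∑ a ∈ Icc 1 s, (1 : ℝ) / a) ^ 2 ≤ 1024 * (G * K / (Real.log K) ^ 2) := by
    calc K * (∏ p ∈ (PR z).filter (fun p => p ∣ H), (1 - (1 : ℝ) / p)⁻¹) /
        (∑ a ∈ Icc 1 s, (1 : ℝ) / a) ^ 2 ≤ K * G / (Real.log K / 32) ^ 2 := by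
          apply div_le_div₀ (by positivity) (mul_le_mul_of_nonneg_left hprod hK0) (by positivity)
          exact pow_le_pow_left₀ hh0.le hH 2
      _ = 1024 * (G * K / (Real.log K) ^ 2) := by
          field_simp
          norm_num
  have hsr : (1 : ℝ) ≤ s := by exact_mod_cast hs1
  have hwzle : ((w * z : ℕ) : ℝ) ≤ Real.sqrt K := by
    have h3 : w * z ≤ s ^ 3 := by
      rw [hz]
      calc w * s ^ 2 ≤ s * s ^ 2 := Nat.mul_le_mul_right _ hws
        _ = s ^ 3 := by ring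
    have h4 : ((w * z : ℕ) : ℝ) ≤ (s : ℝ) ^ 3 := by exact_mod_cast h3
    refine h4.trans (le_trans ?_ hs16)
    exact pow_le_pow_right₀ hsr (by norm_num)
  have hs28 : ((s : ℝ) ^ 2) ^ 8 ≤ Real.sqrt K := by
    rw [← pow_mul]
    exact hs16
  have haux := sqrt_le_aux hK
  have h16 : Real.sqrt K ≤ 16 * (G * K / (Real.log K) ^ 2) := by
    refine haux.trans ?_
    have e1 : 16 * (G * K / (Real.log K) ^ 2) = G * (16 * K / (Real.log K) ^ 2) := by ring
    rw [e1]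
    exact le_mul_of_one_le_left (by positivity) hS1
  have e2 : 1072 * G * K / (Real.log K) ^ 2 = 1072 * (G * K / (Real.log K) ^ 2) := by ring
  have hpos : 0 ≤ G * K / (Real.log K) ^ 2 := by positivity
  rw [e2]
  linarith

end Pool.Agent.Lib.MP_5d7b92_nt.SS
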