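import Pool.Agent.Lib.SW.SC.PIA
import Pool.Agent.Lib.MP_5d7b92_nt.PairSieve
import Pool.Agent.Lib.MP_5d7b92_nt.Assembly
import Pool.Agent.Lib.Sieve.SingularAverage

/-!
# SS (MP_5d7b92): the small scale theorem, uniform in the cofactor. Definitions

w = ⌊loglog Y⌋, the cofactors are the odd d ≤ D ≤ w.
-/

open Finset

namespace Pool.Agent.Lib.MP_5d7b92_nt.SS

/-- the primes `≤ w` -/
def PR (w : ℕ) : Finset ℕ := (range (w + 1)).filter Nat.Prime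

/-- `∏ (1 - 1/p)^(-1)` over the primes `p` with `p ≤ w` or `p ∣ h` -/
noncomputable def Sw (w h : ℕ) : ℝ := ∏ p ∈ PR w ∪ h.primeFactors, (1 - (1 : ℝ) / p)⁻¹

/-- the odd cofactors `≤ D` -/
def OD (D : ℕ) : Finset ℕ := (Icc 1 D).filter (fun d => d % 2 = 1)

/-- `∑_{d odd, d ≤ D} 1/d` -/
noncomputable def ho (D : ℕ) : ℝ := ∑ d ∈ OD D, 1 / (d : ℝ)

/-- `2n = b + d q` with an odd `d ≤ D` and a prime `q > D` -/
def Rp (D n b : ℕ) : Prop := ∃ d ∈ OD D, ∃ q : ℕ, q.Prime ∧ D < q ∧ 2 * n = b + d * q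

open Classical in
/-- the number of `b ∈ Q` with `Rp D n b` -/
noncomputable def rn (D : ℕ) (Q : Finset ℕ) (n : ℕ) : ℕ := (Q.filter (fun b => Rp D n b)).card

theorem mem_PR {w p : ℕ} : p ∈ PR w ↔ p ≤ w ∧ p.Prime := by
  unfold PR
  rw [mem_filter, mem_range, Nat.lt_succ_iff]

theorem mem_OD {D d : ℕ} : d ∈ OD D ↔ (1 ≤ d ∧ d ≤ D) ∧ d % 2 = 1 := by
  unfold OD
  rw [mem_filter, mem_Icc]

end Pool.Agent.Lib.MP_5d7b92_nt.SS
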