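import Pool.Agent.Lib.MP_5d7b92_nt.SS.Defs

/-!
# HO: sums over odd numbers

PROOF. ho D ≥ 1 (d = 1). ho D ≥ (1/2) ∑_{d ≤ D} 1/d ≥ (1/2) log(D+1). So
ho D ≥ (1 + log(D+1))/4 : (1 + x)/4 ≤ max(1, x/2) for x ≥ 0. Upper: ho D ≤ ∑_{d ≤ D} 1/d ≤ 1 + log D (`harmonic_le_one_add_log`).
-/

open Finset

namespace Pool.Agent.Lib.MP_5d7b92_nt.SS

private theorem HO_nonneg (D : ℕ) : 0 ≤ ho D := by
  unfold ho
  exact sum_nonneg fun d _ => by positivity

private theorem HO_succ_odd (D : ℕ) (h : (D + 1) % 2 = 1) :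
    ho (D + 1) = ho D + 1 / ((D + 1 : ℕ) : ℝ) := by
  unfold ho OD
  have h1 : Icc 1 (D + 1) = insert (D + 1) (Icc 1 D) := by
    ext x
    rw [mem_insert, mem_Icc, mem_Icc]
    omega
  rw [h1, filter_insert, if_pos h, sum_insert]
  · ring
  · rw [mem_filter, mem_Icc]
    omega

private theorem HO_succ_even (D : ℕ) (h : (D + 1) % 2 = 0) : ho (D + 1) = ho D := by
  unfold ho OD
  have h1 : Icc 1 (D + 1) = insert (D + 1) (Icc 1 D) := by
    ext x
    rw [mem_insert, mem_Icc, mem_Icc]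
    omega
  rw [h1, filter_insert, if_neg (by omega)]

/-- `log (2 m + 1) ≤ 2 ho (2 m)`, and `log (2 m + 2) ≤ 2 ho (2 m + 1)` -/
private theorem HO_log (m : ℕ) : Real.log (2 * m + 1) ≤ 2 * ho (2 * m) := by
  induction m with
  | zero =>
    have := HO_nonneg 0
    simp only [Nat.cast_zero, mul_zero, zero_add, Real.log_one]
    linarith
  | succ m ih =>
    have h1 : ho (2 * (m + 1)) = ho (2 * m) + 1 / ((2 * m + 1 : ℕ) : ℝ) := by
      rw [show 2 * (m + 1) = (2 * m + 1) + 1 by ring, HO_succ_even _ (by omega),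
        HO_succ_odd _ (by omega)]
    rw [h1]
    have h2 : (0 : ℝ) < 2 * m + 1 := by positivity
    have h3 : Real.log (2 * ((m + 1 : ℕ) : ℝ) + 1) - Real.log (2 * m + 1) ≤
        2 / ((2 * m + 1 : ℕ) : ℝ) := by
      rw [← Real.log_div (by positivity) (by positivity)]
      have h4 := Real.log_le_sub_one_of_pos
        (show (0 : ℝ) < (2 * ((m + 1 : ℕ) : ℝ) + 1) / (2 * m + 1) by positivity)
      refine h4.trans (le_of_eq ?_)
      push_cast
      field_simp
      ring
    have h5 : 2 * (ho (2 * m) + 1 / ((2 * m + 1 : ℕ) : ℝ)) =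
        2 * ho (2 * m) + 2 / ((2 * m + 1 : ℕ) : ℝ) := by ring
    rw [h5]
    linarith

theorem ho_lower (D : ℕ) (hD : 1 ≤ D) : (1 + Real.log (D + 1)) / 4 ≤ ho D := by
  have hone : 1 ≤ ho D := by
    unfold ho
    have h1 : 1 ∈ OD D := by
      rw [mem_OD]
      omega
    have := single_le_sum (f := fun d : ℕ => 1 / (d : ℝ)) (fun d _ => by positivity) h1
    simpa using this
  have hlog : Real.log (D + 1) ≤ 2 * ho D := by
    obtain ⟨m, hm | hm⟩ := Nat.even_or_odd' D
    · have := HO_log m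
      rw [hm]
      push_cast
      exact this
    · have h1 := HO_log (m + 1)
      have h2 : ho (2 * (m + 1)) = ho (2 * m + 1) := by
        rw [show 2 * (m + 1) = (2 * m + 1) + 1 by ring, HO_succ_even _ (by omega)]
      rw [h2, ← hm] at h1
      refine le_trans (Real.log_le_log (by positivity) ?_) h1
      rw [hm]
      push_cast
      linarith
  linarith

theorem ho_upper (D : ℕ) (hD : 1 ≤ D) : ho D ≤ 1 + Real.log D := by
  have h1 := harmonic_le_one_add_log D
  refine le_trans ?_ h1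
  unfold ho OD
  rw [harmonic_eq_sum_Icc]
  push_cast
  refine le_trans (sum_le_sum_of_subset_of_nonneg (filter_subset _ _) fun d _ _ => by positivity) ?_
  refine le_of_eq (sum_congr rfl fun d _ => ?_)
  rw [one_div]

end Pool.Agent.Lib.MP_5d7b92_nt.SS
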