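import Pool.Agent.Lib.MP_5d7b92_nt.SS.PJ

/-!
# The scale `log X`

`small_scale_PI` at `Y = ⌈C log X (loglog X)^(j+1)⌉`: `c (1 + log D) X / log₄ X` of the `n ≤ X` have a
`p ≤ C' log X (loglog X)^(j+1)` in `P_j` with `2n - p = d q`, `q` prime, `d ≤ D`, `D ≤ log₃ X`.
-/

open Finset Filter Topology

namespace Pool.Agent.Lib.MP_5d7b92_nt.SS

open Pool.Agent.Lib.SW

open Classical in
theorem log_scale (j : ℕ) : ∃ c C : ℝ, 0 < c ∧ 0 < C ∧ ∃ X₀ : ℕ, ∀ X D : ℕ, X₀ ≤ X → 1 ≤ D →
    (D : ℝ) ≤ Real.log (Real.log (Real.log X)) →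
    c * (1 + Real.log D) * X / Real.log (Real.log (Real.log (Real.log X))) ≤
      (((Icc 1 X).filter (fun n => ∃ p d q : ℕ, PI j p ∧
        (p : ℝ) ≤ C * Real.log X * (Real.log (Real.log X)) ^ (j + 1) ∧ 1 ≤ d ∧ d ≤ D ∧
        q.Prime ∧ 2 * n = p + d * q)).card : ℝ) := by
  obtain ⟨c, C₀, hc, -, X₁, h⟩ := small_scale_PI j
  obtain ⟨C, hC₀, hC1⟩ : ∃ C : ℝ, C₀ ≤ C ∧ 1 ≤ C := ⟨max C₀ 1, le_max_left _ _, le_max_right _ _⟩
  have hC : 0 < C := by linarith
  have t1 : Tendsto (fun X : ℕ => Real.log (X : ℝ)) atTop atTop :=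
    Real.tendsto_log_atTop.comp tendsto_natCast_atTop_atTop
  have t2 : Tendsto (fun X : ℕ => Real.log (Real.log (X : ℝ))) atTop atTop :=
    Real.tendsto_log_atTop.comp t1
  have t3 : Tendsto (fun X : ℕ => Real.log (Real.log (Real.log (X : ℝ)))) atTop atTop :=
    Real.tendsto_log_atTop.comp t2
  have t4 : Tendsto (fun X : ℕ => Real.log (Real.log (Real.log (Real.log (X : ℝ))))) atTop atTop :=
    Real.tendsto_log_atTop.comp t3
  -- `(C + 1) (log y)^(j+1) ≤ y` and `y ^ 2 ≤ exp y`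
  have hlo : ∀ᶠ y : ℝ in atTop, (C + 1) * (Real.log y) ^ (j + 1) ≤ y := by
    have h1 : (fun y : ℝ => (Real.log y) ^ (j + 1)) =o[atTop] fun y : ℝ => y ^ (1 : ℝ) := by
      have := isLittleO_log_rpow_rpow_atTop ((j + 1 : ℕ) : ℝ) (show (0 : ℝ) < 1 by norm_num)
      refine this.congr_left fun y => ?_
      rw [Real.rpow_natCast]
    have h2 := h1.bound (show 0 < 1 / (C + 1) by positivity)
    filter_upwards [h2, eventually_ge_atTop 1] with y h3 h4
    rw [Real.norm_of_nonneg (pow_nonneg (Real.log_nonneg h4) _),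
      Real.norm_of_nonneg (by positivity), Real.rpow_one] at h3
    calc (C + 1) * (Real.log y) ^ (j + 1) ≤ (C + 1) * (1 / (C + 1) * y) := by gcongr
      _ = y := by field_simp
  have hsq : ∀ᶠ y : ℝ in atTop, y ^ 2 ≤ Real.exp y := by
    have h1 : (fun y : ℝ => y ^ (2 : ℝ)) =o[atTop] fun y : ℝ => Real.exp (1 * y) :=
      isLittleO_rpow_exp_pos_mul_atTop 2 one_pos
    have h2 := h1.bound one_pos
    filter_upwards [h2, eventually_ge_atTop 0] with y h3 h4
    rw [Real.norm_of_nonneg (by positivity), Real.norm_of_nonneg (Real.exp_pos _).le, one_mul,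
      one_mul] at h3
    calc y ^ 2 = y ^ (2 : ℝ) := by rw [← Real.rpow_natCast]; norm_num
      _ ≤ Real.exp y := h3
  obtain ⟨X₂, hX₂⟩ := eventually_atTop.1 ((t1.eventually hlo).and ((t1.eventually hsq).and
    ((t2.eventually_ge_atTop 1).and ((t3.eventually_ge_atTop 2).and
    ((t4.eventually_ge_atTop 2).and (eventually_ge_atTop 2))))))
  refine ⟨c / 2, C + 1, by positivity, by positivity, max X₁ X₂, fun X D hX hD1 hD => ?_⟩
  obtain ⟨k1, k2, k3, k4, k5, k6⟩ := hX₂ X ((le_max_right _ _).trans hX)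
  obtain ⟨L, hL⟩ : ∃ L : ℝ, L = Real.log (X : ℝ) := ⟨_, rfl⟩
  rw [← hL] at k1 k2 k3 k4 k5 hD ⊢
  have hX0 : (0 : ℝ) < X := by
    have : (2 : ℝ) ≤ X := by exact_mod_cast k6
    linarith
  have hexp : Real.exp L = X := by rw [hL, Real.exp_log hX0]
  -- `L` is large
  have hL1 : 1 ≤ L := by
    by_contra hcon
    rw [not_le] at hcon
    have hL0 : 0 ≤ L := hL ▸ Real.log_natCast_nonneg X
    have : Real.log L ≤ 0 := Real.log_nonpos hL0 hcon.le
    linarith
  obtain ⟨A, hA⟩ : ∃ A : ℝ, A = L * (Real.log L) ^ (j + 1) := ⟨_, rfl⟩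
  have hA1 : 1 ≤ A := by
    have h5 : 1 ≤ (Real.log L) ^ (j + 1) := one_le_pow₀ k3
    rw [hA]
    nlinarith
  let Y : ℕ := ⌈C * L * (Real.log L) ^ (j + 1)⌉₊
  have hY1 : C * L * (Real.log L) ^ (j + 1) ≤ (Y : ℝ) := Nat.le_ceil _
  have hY2 : (Y : ℝ) ≤ (C + 1) * L * (Real.log L) ^ (j + 1) := by
    have h5 : (Y : ℝ) < C * L * (Real.log L) ^ (j + 1) + 1 :=
      Nat.ceil_lt_add_one (by positivity)
    have h6 : (C + 1) * L * (Real.log L) ^ (j + 1) = C * L * (Real.log L) ^ (j + 1) + A := by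
      rw [hA]; ring
    linarith
  have hY3 : (Y : ℝ) ≤ L ^ 2 := by
    calc (Y : ℝ) ≤ (C + 1) * L * (Real.log L) ^ (j + 1) := hY2
      _ = L * ((C + 1) * (Real.log L) ^ (j + 1)) := by ring
      _ ≤ L * L := mul_le_mul_of_nonneg_left k1 (by linarith)
      _ = L ^ 2 := by ring
  have hYX : Y ≤ X := by
    have : (Y : ℝ) ≤ X := by
      rw [← hexp]
      exact hY3.trans k2
    exact_mod_cast this
  have hLY : L ≤ Y := by
    have h5 : 1 ≤ (Real.log L) ^ (j + 1) := one_le_pow₀ k3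
    have h6 : L * 1 ≤ L * (C * (Real.log L) ^ (j + 1)) := by
      apply mul_le_mul_of_nonneg_left _ (by linarith)
      nlinarith
    calc L = L * 1 := (mul_one L).symm
      _ ≤ L * (C * (Real.log L) ^ (j + 1)) := h6
      _ = C * L * (Real.log L) ^ (j + 1) := by ring
      _ ≤ Y := hY1
  have hL0 : 0 < L := by linarith
  have hY0 : (0 : ℝ) < Y := by linarith
  have a1 : Real.log L ≤ Real.log Y := Real.log_le_log hL0 hLY
  have a2 : Real.log Y ≤ 2 * Real.log L := by
    have := Real.log_le_log hY0 hY3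
    rw [Real.log_pow] at this
    exact_mod_cast this
  have hl2 := Real.log_two_lt_d9
  have b0 : 0 < Real.log L := by linarith
  have b1 : Real.log (Real.log L) ≤ Real.log (Real.log Y) := Real.log_le_log b0 a1
  have b2 : Real.log (Real.log Y) ≤ 2 * Real.log (Real.log L) := by
    have := Real.log_le_log (by linarith) a2
    rw [Real.log_mul two_ne_zero b0.ne'] at this
    linarith
  have c0 : 0 < Real.log (Real.log L) := by linarith
  have c1 : Real.log (Real.log (Real.log L)) ≤ Real.log (Real.log (Real.log Y)) :=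
    Real.log_le_log c0 b1
  have c2 : Real.log (Real.log (Real.log Y)) ≤ 2 * Real.log (Real.log (Real.log L)) := by
    have := Real.log_le_log (by linarith) b2
    rw [Real.log_mul two_ne_zero c0.ne'] at this
    linarith
  have hD0 : (1 : ℝ) ≤ D := by exact_mod_cast hD1
  have d1 := Real.log_nonneg hD0
  have d2 : Real.log (D : ℝ) ≤ Real.log ((D : ℝ) + 1) := Real.log_le_log (by linarith) (by linarith)
  have hYC : C₀ * Real.log X * (Real.log (Real.log X)) ^ (j + 1) ≤ Y := by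
    rw [← hL]
    refine le_trans ?_ hY1
    gcongr
  have hmain := h X Y D ((le_max_left _ _).trans hX) hYX hYC hD1 (hD.trans b1)
  have e1 : c / 2 * (1 + Real.log D) * X / Real.log (Real.log (Real.log L)) ≤
      c * (1 + Real.log (D + 1)) * X / Real.log (Real.log (Real.log Y)) := by
    calc c / 2 * (1 + Real.log D) * X / Real.log (Real.log (Real.log L))
        = c * (1 + Real.log D) * X / (2 * Real.log (Real.log (Real.log L))) := by
          field_simp
      _ ≤ c * (1 + Real.log (D + 1)) * X / Real.log (Real.log (Real.log Y)) := by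
          refine div_le_div₀ ?_ ?_ (by linarith) c2
          · have f3 : 0 ≤ 1 + Real.log ((D : ℝ) + 1) := by linarith
            positivity
          · apply mul_le_mul_of_nonneg_right _ hX0.le
            apply mul_le_mul_of_nonneg_left _ hc.le
            linarith
  refine e1.trans (hmain.trans ?_)
  rw [Nat.cast_le]
  apply card_le_card
  intro n hn
  rw [mem_filter] at hn ⊢
  refine ⟨hn.1, ?_⟩
  have hpos : 0 < c * (1 + Real.log (D + 1)) * Y / ((Real.log Y) ^ (j + 1) * Real.log X) := by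
    have f1 : 0 < Real.log Y := by linarith
    have f2 : 0 < Real.log (X : ℝ) := hL ▸ hL0
    have f3 : 0 < 1 + Real.log ((D : ℝ) + 1) := by linarith
    positivity
  have hr : (0 : ℝ) < (rn D ((Icc 1 Y).filter (PI j)) n : ℝ) := hpos.trans_le hn.2
  have hr' : 0 < rn D ((Icc 1 Y).filter (PI j)) n := by exact_mod_cast hr
  unfold rn at hr'
  obtain ⟨b, hb⟩ := card_pos.1 hr'
  rw [mem_filter, mem_filter, mem_Icc] at hb
  obtain ⟨⟨⟨-, hbY⟩, hbP⟩, d, hd, q, hq, -, h2⟩ := hb
  rw [mem_OD] at hd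
  refine ⟨b, d, q, hbP, ?_, hd.1.1, hd.1.2, hq, h2⟩
  have : (b : ℝ) ≤ Y := by exact_mod_cast hbY
  exact this.trans hY2

end Pool.Agent.Lib.MP_5d7b92_nt.SS
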