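import Pool.Agent.Lib.MP_5d7b92_nt.SS.HO
import Pool.Agent.Lib.MP_5d7b92_nt.Count

/-!
# M1: the first moment

PROOF. Lower bound: the triples (b, d, q), b ∈ Q (odd), d ∈ OD D, D < q ≤ X/d, q prime odd: b + d q is even, ≤ 2X, so = 2n with 1 ≤ n ≤ X; the map to (n, b) is injective: if d q = d' q' with
d, d' ≤ D < q, q' primes then q | d' q' forces q = q' (q > D ≥ d'), d = d'. So ∑_n rn ≥ ∑_b ∑_d #{q : D < q ≤ X/d prime} ≥ |Q| ∑_d (π(X/d) - D) (q > D ≥ 1; D < q excludes q = 2 only if D ≥ 2: for D = 1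
remove q = 2: π - 1 ≤ … so subtract D + 1). `primeCounting_ge`: π(m) ≥ m/(10 log m) for m ≥ 2, m = ⌊X/d⌋ ≥ X/(2d) , so ≥ X/(20 d log X) - (D + 1) ≥ X/(40 d log X) as D ≤ log X.
Upper bound: rn counts b with some (d,q): ∑_n rn ≤ ∑_b ∑_d π(2X/d), d ≤ log X: π(m) ≤ 5 m/log m (`primeCounting_le`), m = ⌊2X/d⌋ ≥ √X: ≤ 5 (2X/d)/((1/2) log X) = 20 X/(d log X).
-/

open Finset

namespace Pool.Agent.Lib.MP_5d7b92_nt.SS

private theorem M1_ev : ∃ X₀ : ℕ, ∀ X : ℕ, X₀ ≤ X → 1 ≤ Real.log X ∧ 80 * Real.log X ^ 4 ≤ X := by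
  have h1 : ∀ᶠ x : ℝ in Filter.atTop, 1 ≤ Real.log x :=
    Real.tendsto_log_atTop.eventually_ge_atTop 1
  have h2 : ∀ᶠ x : ℝ in Filter.atTop, 80 * Real.log x ^ 4 ≤ x := by
    have h := (Real.isLittleO_pow_log_id_atTop (n := 4)).def (c := 1 / 80) (by norm_num)
    filter_upwards [h, Filter.eventually_ge_atTop 0] with x hx hx0
    rw [Real.norm_eq_abs, Real.norm_eq_abs, id, abs_of_nonneg hx0] at hx
    have := le_abs_self (Real.log x ^ 4)
    linarith
  have h3 := tendsto_natCast_atTop_atTop (R := ℝ) |>.eventually (h1.and h2)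
  obtain ⟨X₀, hX⟩ := Filter.eventually_atTop.mp h3
  exact ⟨X₀, hX⟩

open Classical in
private theorem M1_sum (D X : ℕ) (Q : Finset ℕ) : ∑ n ∈ Icc 1 X, (rn D Q n : ℝ) =
    ∑ b ∈ Q, (((Icc 1 X).filter (fun n => Rp D n b)).card : ℝ) := by
  unfold rn
  simp only [card_filter, Nat.cast_sum]
  rw [sum_comm]

/-- the primes counted for the cofactor `d` -/
private def M1_P (D X d : ℕ) : Finset ℕ := (Nat.primesLE (X / d)).filter (fun q => D < q ∧ q ≠ 2)

open Classical in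
private theorem M1_low (D X b : ℕ) (hbX : b ∈ Icc 1 X) (hb : b % 2 = 1) :
    ∑ d ∈ OD D, (M1_P D X d).card ≤ ((Icc 1 X).filter (fun n => Rp D n b)).card := by
  rw [← card_sigma]
  rw [mem_Icc] at hbX
  have hmem : ∀ x ∈ (OD D).sigma (fun d => M1_P D X d), 1 ≤ x.1 ∧ x.1 ≤ D ∧ x.2.Prime ∧ D < x.2 ∧
      x.1 * x.2 ≤ X ∧ (b + x.1 * x.2) % 2 = 0 := by
    rintro ⟨d, q⟩ hx
    rw [mem_sigma] at hx
    obtain ⟨hd, hq⟩ := hx
    rw [mem_OD] at hd
    unfold M1_P at hq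
    rw [mem_filter, Nat.mem_primesLE] at hq
    obtain ⟨⟨hq1, hq2⟩, hq3, hq4⟩ := hq
    have hqo : q % 2 = 1 := by
      rcases hq2.eq_two_or_odd with h | h
      · exact absurd h hq4
      · exact h
    refine ⟨hd.1.1, hd.1.2, hq2, hq3, ?_, ?_⟩
    · calc d * q ≤ d * (X / d) := Nat.mul_le_mul_left d hq1
        _ ≤ X := Nat.mul_div_le X d
    · have : (d * q) % 2 = 1 := by rw [Nat.mul_mod, hd.2, hqo]
      show (b + d * q) % 2 = 0
      omega
  refine card_le_card_of_injOn (fun x => (b + x.1 * x.2) / 2) ?_ ?_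
  · intro x hx
    obtain ⟨h1, h2, h3, h4, h5, h6⟩ := hmem x hx
    have hx' := hx
    rw [mem_coe, mem_sigma] at hx'
    rw [mem_coe, mem_filter, mem_Icc]
    refine ⟨⟨?_, ?_⟩, x.1, hx'.1, x.2, h3, h4, ?_⟩
    · have : 1 ≤ x.1 * x.2 := Nat.mul_pos h1 h3.pos
      show 1 ≤ (b + x.1 * x.2) / 2
      omega
    · show (b + x.1 * x.2) / 2 ≤ X
      omega
    · show 2 * ((b + x.1 * x.2) / 2) = b + x.1 * x.2
      omega
  · rintro ⟨d, q⟩ hx ⟨d', q'⟩ hx' heq
    obtain ⟨h1, h2, h3, h4, h5, h6⟩ := hmem _ hx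
    obtain ⟨h1', h2', h3', h4', h5', h6'⟩ := hmem _ hx'
    simp only at h1 h2 h3 h4 h5 h6 h1' h2' h3' h4' h5' h6' heq
    have hm : d * q = d' * q' := by omega
    have hq : q = q' := by
      have hdvd : q ∣ d' * q' := hm ▸ Dvd.intro_left d rfl
      rcases h3.dvd_mul.mp hdvd with h | h
      · have := Nat.le_of_dvd h1' h
        omega
      · exact (Nat.prime_dvd_prime_iff_eq h3 h3').mp h
    subst hq
    have hd : d = d' := Nat.eq_of_mul_eq_mul_right h3.pos hm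
    subst hd
    rfl

private theorem M1_pc (D X d : ℕ) : Nat.primeCounting (X / d) ≤ (M1_P D X d).card + (D + 1) := by
  rw [← Nat.primesLE_card_eq_primeCounting]
  have h1 : Nat.primesLE (X / d) ⊆ M1_P D X d ∪ (Icc 1 D ∪ {2}) := by
    intro q hq
    rw [mem_union, mem_union, mem_singleton]
    by_cases h : D < q ∧ q ≠ 2
    · left
      exact mem_filter.mpr ⟨hq, h⟩
    · right
      rw [Nat.mem_primesLE] at hq
      have := hq.2.pos
      rw [mem_Icc]
      by_contra hne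
      apply h
      push Not at hne
      constructor
      · by_contra h3
        push Not at h3
        exact absurd (hne.1 this) (by omega)
      · exact hne.2
  calc (Nat.primesLE (X / d)).card ≤ (M1_P D X d ∪ (Icc 1 D ∪ {2})).card := card_le_card h1
    _ ≤ (M1_P D X d).card + (Icc 1 D ∪ {2}).card := card_union_le _ _
    _ ≤ (M1_P D X d).card + ((Icc 1 D).card + ({2} : Finset ℕ).card) :=
        Nat.add_le_add_left (card_union_le _ _) _
    _ = (M1_P D X d).card + (D + 1) := by rw [Nat.card_Icc, card_singleton]; simp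

theorem first_lower : ∃ X₀ : ℕ, ∀ X D : ℕ, X₀ ≤ X → 1 ≤ D → (D : ℝ) ≤ Real.log X →
    ∀ Q : Finset ℕ, Q ⊆ Icc 1 X → (∀ b ∈ Q, b % 2 = 1) →
    1 / 40 * ((Q.card : ℝ) * ho D * (X / Real.log X)) ≤ ∑ n ∈ Icc 1 X, (rn D Q n : ℝ) := by
  classical
  obtain ⟨X₀, hX₀⟩ := M1_ev
  refine ⟨X₀, fun X D hX hD hDX Q hQ hQo => ?_⟩
  obtain ⟨hL1, hL4⟩ := hX₀ X hX
  obtain ⟨L, hL⟩ : ∃ L, L = Real.log X := ⟨_, rfl⟩
  rw [← hL] at hL1 hL4 hDX ⊢
  have hL3 : 80 * L ^ 3 ≤ X := by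
    have : L ^ 3 ≤ L ^ 4 := pow_le_pow_right₀ hL1 (by norm_num)
    linarith
  have hL0 : 0 < L := by linarith
  have hX0 : (0 : ℝ) < X := by
    have : 0 < 80 * L ^ 3 := by positivity
    linarith
  have key : ∀ d ∈ OD D, 1 / 40 * (X / L) * (1 / (d : ℝ)) ≤ ((M1_P D X d).card : ℝ) := by
    intro d hd
    rw [mem_OD] at hd
    have hd1 : (1 : ℝ) ≤ d := by exact_mod_cast hd.1.1
    have hdD : (d : ℝ) ≤ L := le_trans (by exact_mod_cast hd.1.2) hDX
    have hd0 : (0 : ℝ) < d := by linarith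
    have hL2 : L ≤ L ^ 2 := by nlinarith
    have hL23 : L ^ 2 ≤ L ^ 3 := pow_le_pow_right₀ hL1 (by norm_num)
    have hXd : (2 : ℝ) * d ≤ X := by nlinarith
    have hm1 : (X : ℝ) / (2 * d) ≤ ((X / d : ℕ) : ℝ) := by
      have h1 : (X : ℝ) / d < ((X / d : ℕ) : ℝ) + 1 := by
        rw [div_lt_iff₀ hd0]
        have := Nat.lt_mul_div_succ X (show 0 < d from hd.1.1)
        have h2 : ((X : ℕ) : ℝ) < ((d * (X / d + 1) : ℕ) : ℝ) := by exact_mod_cast this
        push_cast at h2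
        linarith
      have h2 : (1 : ℝ) ≤ X / (2 * d) := by rw [le_div_iff₀ (by positivity)]; linarith
      have h3 : (X : ℝ) / d = X / (2 * d) + X / (2 * d) := by field_simp; ring
      linarith
    have hm2 : 2 ≤ X / d := by
      rw [Nat.le_div_iff_mul_le hd.1.1]
      exact_mod_cast hXd
    have hm2' : (2 : ℝ) ≤ ((X / d : ℕ) : ℝ) := by exact_mod_cast hm2
    have hpc := primeCounting_ge (X / d) hm2
    have hlm : Real.log ((X / d : ℕ) : ℝ) ≤ L := by
      rw [hL]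
      apply Real.log_le_log (by linarith)
      exact_mod_cast Nat.div_le_self X d
    have hlm0 : 0 < Real.log ((X / d : ℕ) : ℝ) := Real.log_pos (by linarith)
    have h1 : (X : ℝ) / (2 * d) / (10 * L) ≤
        (1 / 10 : ℝ) * ((X / d : ℕ) : ℝ) / Real.log ((X / d : ℕ) : ℝ) := by
      rw [div_le_div_iff₀ (by positivity) hlm0]
      have h2 : (X : ℝ) / (2 * d) * Real.log ((X / d : ℕ) : ℝ) ≤ ((X / d : ℕ) : ℝ) * L :=
        mul_le_mul hm1 hlm hlm0.le (by positivity)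
      linarith
    have h4 : (Nat.primeCounting (X / d) : ℝ) ≤ ((M1_P D X d).card : ℝ) + (D + 1) := by
      exact_mod_cast M1_pc D X d
    have h5 : ((D : ℝ) + 1) ≤ 1 / 40 * (X / L) * (1 / (d : ℝ)) := by
      have e : 1 / 40 * ((X : ℝ) / L) * (1 / (d : ℝ)) = X / (40 * L * d) := by field_simp
      rw [e, le_div_iff₀ (by positivity)]
      have h6 : ((D : ℝ) + 1) * (40 * L * d) ≤ (2 * L) * (40 * L * L) := by
        apply mul_le_mul (by linarith) _ (by positivity) (by positivity)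
        apply mul_le_mul_of_nonneg_left hdD (by positivity)
      calc ((D : ℝ) + 1) * (40 * L * d) ≤ (2 * L) * (40 * L * L) := h6
        _ = 80 * L ^ 3 := by ring
        _ ≤ X := hL3
    have e2 : (X : ℝ) / (2 * d) / (10 * L) =
        1 / 40 * (X / L) * (1 / (d : ℝ)) + 1 / 40 * (X / L) * (1 / (d : ℝ)) := by
      field_simp; norm_num
    linarith
  rw [M1_sum]
  have h7 : ∀ b ∈ Q, 1 / 40 * (ho D * (X / L)) ≤
      (((Icc 1 X).filter (fun n => Rp D n b)).card : ℝ) := by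
    intro b hb
    have h8 := M1_low D X b (hQ hb) (hQo b hb)
    have h9 : ((∑ d ∈ OD D, (M1_P D X d).card : ℕ) : ℝ) ≤
        (((Icc 1 X).filter (fun n => Rp D n b)).card : ℝ) := by exact_mod_cast h8
    refine le_trans ?_ h9
    push_cast
    unfold ho
    calc 1 / 40 * ((∑ d ∈ OD D, 1 / (d : ℝ)) * (X / L))
        = ∑ d ∈ OD D, 1 / 40 * (X / L) * (1 / (d : ℝ)) := by
          rw [← mul_sum]; ring
      _ ≤ _ := sum_le_sum key
  calc 1 / 40 * ((Q.card : ℝ) * ho D * (X / L)) = ∑ _b ∈ Q, 1 / 40 * (ho D * (X / L)) := by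
        rw [sum_const, nsmul_eq_mul]; ring
    _ ≤ _ := sum_le_sum h7

open Classical in
private theorem M1_up (D X b : ℕ) :
    ((Icc 1 X).filter (fun n => Rp D n b)).card ≤ ∑ d ∈ OD D, Nat.primeCounting (2 * X / d) := by
  have h1 : (Icc 1 X).filter (fun n => Rp D n b) ⊆
      ((OD D).sigma (fun d => Nat.primesLE (2 * X / d))).image (fun x => (b + x.1 * x.2) / 2) := by
    intro n hn
    rw [mem_filter, mem_Icc] at hn
    obtain ⟨⟨hn1, hn2⟩, d, hd, q, hq, hDq, hnq⟩ := hn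
    rw [mem_image]
    refine ⟨⟨d, q⟩, ?_, ?_⟩
    · rw [mem_sigma, Nat.mem_primesLE]
      refine ⟨hd, ?_, hq⟩
      rw [mem_OD] at hd
      show q ≤ 2 * X / d
      rw [Nat.le_div_iff_mul_le hd.1.1, mul_comm]
      omega
    · show (b + d * q) / 2 = n
      omega
  refine (card_le_card h1).trans (card_image_le.trans ?_)
  rw [card_sigma]
  apply le_of_eq
  exact sum_congr rfl fun d _ => Nat.primesLE_card_eq_primeCounting _

theorem first_upper : ∃ X₀ : ℕ, ∀ X D : ℕ, X₀ ≤ X → 1 ≤ D → (D : ℝ) ≤ Real.log X →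
    ∀ Q : Finset ℕ, Q ⊆ Icc 1 X →
    ∑ n ∈ Icc 1 X, (rn D Q n : ℝ) ≤ 40 * ((Q.card : ℝ) * ho D * (X / Real.log X)) := by
  classical
  obtain ⟨X₀, hX₀⟩ := M1_ev
  refine ⟨X₀, fun X D hX hD hDX Q hQ => ?_⟩
  obtain ⟨hL1, hL4⟩ := hX₀ X hX
  obtain ⟨L, hL⟩ : ∃ L, L = Real.log X := ⟨_, rfl⟩
  rw [← hL] at hL1 hL4 hDX ⊢
  have hL0 : 0 < L := by linarith
  have hX0 : (0 : ℝ) < X := by
    have : 0 < 80 * L ^ 4 := by positivity
    linarith
  have key : ∀ d ∈ OD D, (Nat.primeCounting (2 * X / d) : ℝ) ≤ 40 * (X / L) * (1 / (d : ℝ)) := by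
    intro d hd
    rw [mem_OD] at hd
    have hd1 : (1 : ℝ) ≤ d := by exact_mod_cast hd.1.1
    have hdD : (d : ℝ) ≤ L := le_trans (by exact_mod_cast hd.1.2) hDX
    have hd0 : (0 : ℝ) < d := by linarith
    obtain ⟨m, hm⟩ : ∃ m, m = 2 * X / d := ⟨_, rfl⟩
    rw [← hm]
    have hmu : (m : ℝ) ≤ 2 * X / d := by
      rw [hm, le_div_iff₀ hd0]
      exact_mod_cast Nat.div_mul_le_self (2 * X) d
    -- lower bound `X ≤ m ^ 2`
    have hml : (X : ℝ) / d ≤ m := by
      have h1 : (2 * X : ℝ) / d < (m : ℝ) + 1 := by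
        rw [div_lt_iff₀ hd0, hm]
        have := Nat.lt_mul_div_succ (2 * X) (show 0 < d from hd.1.1)
        have h2 : ((2 * X : ℕ) : ℝ) < ((d * (2 * X / d + 1) : ℕ) : ℝ) := by exact_mod_cast this
        push_cast at h2
        linarith
      have h2 : (1 : ℝ) ≤ X / d := by
        rw [le_div_iff₀ hd0]
        have : L ≤ L ^ 4 := by
          calc L = L ^ 1 := (pow_one L).symm
            _ ≤ L ^ 4 := pow_le_pow_right₀ hL1 (by norm_num)
        nlinarith
      have h3 : (2 * X : ℝ) / d = X / d + X / d := by ring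
      linarith
    have hsq : (X : ℝ) ≤ (m : ℝ) ^ 2 := by
      have h1 : (X : ℝ) ≤ (X / d) ^ 2 := by
        rw [div_pow, le_div_iff₀ (by positivity)]
        have h2 : (d : ℝ) ^ 2 ≤ X := by
          have h3 : (d : ℝ) ^ 2 ≤ L ^ 2 := pow_le_pow_left₀ hd0.le hdD 2
          have h4 : L ^ 2 ≤ L ^ 4 := pow_le_pow_right₀ hL1 (by norm_num)
          nlinarith [pow_pos hL0 4]
        nlinarith
      refine h1.trans (pow_le_pow_left₀ (by positivity) hml 2)
    have hX80 : (80 : ℝ) ≤ X := by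
      have : (1 : ℝ) ≤ L ^ 4 := one_le_pow₀ hL1
      linarith
    have hm2 : 2 ≤ m := by
      by_contra h
      push Not at h
      have h1 : (m : ℝ) ≤ 1 := by exact_mod_cast Nat.lt_succ_iff.mp h
      have h2 : (0 : ℝ) ≤ m := Nat.cast_nonneg m
      nlinarith
    have hm0 : (0 : ℝ) < m := by
      have : (2 : ℝ) ≤ m := by exact_mod_cast hm2
      linarith
    have hlog : L / 2 ≤ Real.log m := by
      have h1 : L ≤ Real.log ((m : ℝ) ^ 2) := by
        rw [hL]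
        exact Real.log_le_log hX0 hsq
      rw [Real.log_pow] at h1
      push_cast at h1
      linarith
    refine (primeCounting_le m hm2).trans ?_
    have hlm0 : 0 < Real.log m := by linarith
    rw [div_le_iff₀ hlm0]
    calc 5 * (m : ℝ) ≤ 5 * (2 * X / d) := by linarith
      _ = 20 * (X / L) * (1 / (d : ℝ)) * (L / 2) := by field_simp; norm_num
      _ ≤ 40 * (X / L) * (1 / (d : ℝ)) * (L / 2) := by
          apply mul_le_mul_of_nonneg_right _ (by positivity)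
          apply mul_le_mul_of_nonneg_right _ (by positivity)
          apply mul_le_mul_of_nonneg_right (by norm_num) (by positivity)
      _ ≤ 40 * (X / L) * (1 / (d : ℝ)) * Real.log m :=
          mul_le_mul_of_nonneg_left hlog (by positivity)
  rw [M1_sum]
  have h7 : ∀ b ∈ Q, (((Icc 1 X).filter (fun n => Rp D n b)).card : ℝ) ≤
      40 * (ho D * (X / L)) := by
    intro b _
    have h9 : (((Icc 1 X).filter (fun n => Rp D n b)).card : ℝ) ≤
        ((∑ d ∈ OD D, Nat.primeCounting (2 * X / d) : ℕ) : ℝ) := by exact_mod_cast M1_up D X b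
    refine h9.trans ?_
    push_cast
    unfold ho
    calc ∑ d ∈ OD D, (Nat.primeCounting (2 * X / d) : ℝ)
        ≤ ∑ d ∈ OD D, 40 * (X / L) * (1 / (d : ℝ)) := sum_le_sum key
      _ = 40 * ((∑ d ∈ OD D, 1 / (d : ℝ)) * (X / L)) := by
          rw [← mul_sum]; ring
  calc ∑ b ∈ Q, (((Icc 1 X).filter (fun n => Rp D n b)).card : ℝ)
      ≤ ∑ _b ∈ Q, 40 * (ho D * (X / L)) := sum_le_sum h7
    _ = 40 * ((Q.card : ℝ) * ho D * (X / L)) := by
        rw [sum_const, nsmul_eq_mul]; ring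

end Pool.Agent.Lib.MP_5d7b92_nt.SS
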