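import Pool.Agent.Lib.MP_5d7b92_nt.SS.M1
import Pool.Agent.Lib.MP_5d7b92_nt.SS.CS

/-!
# M2: the second moment

PROOF. rn² = #{(b,b') : both represented} = rn + 2 #{(b, b') : b' < b both}. For b' < b in Q with 2n = b + d q = b' + d' q' (d, d' ∈ OD D): d q + (b - b') = d' q', so summing over n the pair (n) is
determined by (b, b', d, q): ∑_n #{pairs} ≤ ∑_{b' < b} ∑_{d ∈ OD D} #{q ≤ 2X/d : q prime, d q + (b-b') = d' q'}, `cof_sieve` with K = ⌊2X/d⌋ = 2X/d (nat), h = b - b', w ≥ D: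
≤ C Sw w (b-b') (2X/d)/(log(2X/d))² ≤ 8 C Sw (X/d)/(log X)² (log(⌊2X/d⌋) ≥ (1/2) log X because d ≤ log X). Sum over d: ho D. Add `first_upper`.
-/

open Finset

namespace Pool.Agent.Lib.MP_5d7b92_nt.SS

open Classical in
/-- indicator -/
private noncomputable def ind (D n b : ℕ) : ℝ := if Rp D n b then 1 else 0

private theorem ind_nonneg (D n b : ℕ) : 0 ≤ ind D n b := by
  unfold ind
  split_ifs
  · exact zero_le_one
  · exact le_rfl

private theorem ind_sq (D n b : ℕ) : ind D n b * ind D n b = ind D n b := by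
  unfold ind
  split_ifs
  · rw [mul_one]
  · rw [mul_zero]

private theorem rn_eq (D : ℕ) (Q : Finset ℕ) (n : ℕ) : (rn D Q n : ℝ) = ∑ b ∈ Q, ind D n b := by
  unfold rn ind
  rw [card_filter]
  push_cast
  rfl

/-- the square of `rn` -/
private theorem rn_sq (D : ℕ) (Q : Finset ℕ) (n : ℕ) : (rn D Q n : ℝ) ^ 2 =
    (rn D Q n : ℝ) + 2 * ∑ b ∈ Q, ∑ b' ∈ Q.filter (fun b' => b' < b), ind D n b * ind D n b' := by
  have h0 : (rn D Q n : ℝ) ^ 2 = ∑ b ∈ Q, ∑ b' ∈ Q, ind D n b * ind D n b' := by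
    rw [rn_eq, sq, sum_mul_sum]
  have h1 : ∀ b ∈ Q, ∑ b' ∈ Q, ind D n b * ind D n b' =
      ∑ b' ∈ Q.filter (fun b' => b' < b), ind D n b * ind D n b' + ind D n b +
      ∑ b' ∈ Q.filter (fun b' => b < b'), ind D n b * ind D n b' := by
    intro b hb
    have e1 := sum_filter_add_sum_filter_not Q (fun b' => b' < b)
      (fun b' => ind D n b * ind D n b')
    have e2 : Q.filter (fun b' => ¬ b' < b) = insert b (Q.filter (fun b' => b < b')) := by
      ext a
      rw [mem_filter, mem_insert, mem_filter]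
      constructor
      · rintro ⟨h3, h4⟩
        rcases Nat.lt_or_ge b a with h5 | h5
        · exact Or.inr ⟨h3, h5⟩
        · exact Or.inl (by omega)
      · rintro (h3 | ⟨h3, h4⟩)
        · subst h3
          exact ⟨hb, lt_irrefl _⟩
        · exact ⟨h3, by omega⟩
    rw [← e1, e2, sum_insert (by
      rw [mem_filter]
      exact fun h => lt_irrefl _ h.2), ind_sq]
    ring
  rw [h0, sum_congr rfl h1, sum_add_distrib, sum_add_distrib]
  have h2 : ∑ b ∈ Q, ∑ b' ∈ Q.filter (fun b' => b < b'), ind D n b * ind D n b' =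
      ∑ b ∈ Q, ∑ b' ∈ Q.filter (fun b' => b' < b), ind D n b * ind D n b' := by
    have e1 : ∀ b ∈ Q, ∑ b' ∈ Q.filter (fun b' => b < b'), ind D n b * ind D n b' =
        ∑ b' ∈ Q, if b < b' then ind D n b * ind D n b' else 0 := fun b _ => sum_filter _ _
    have e2 : ∀ b ∈ Q, ∑ b' ∈ Q.filter (fun b' => b' < b), ind D n b * ind D n b' =
        ∑ b' ∈ Q, if b' < b then ind D n b * ind D n b' else 0 := fun b _ => sum_filter _ _
    rw [sum_congr rfl e1, sum_congr rfl e2, sum_comm]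
    refine sum_congr rfl fun b _ => sum_congr rfl fun b' _ => ?_
    rw [mul_comm]
  rw [h2, ← rn_eq]
  ring

open Classical in
private theorem pair_le (X w D b b' : ℕ) (hD : 1 ≤ D) (hDw : D ≤ w) (hb : b' < b) :
    ∑ n ∈ Icc 1 X, ind D n b * ind D n b' ≤
      ∑ d ∈ OD D, (((Icc 1 (2 * X / d)).filter (fun q => q.Prime ∧ ∃ d' ∈ Icc 1 w,
        (d * q + (b - b')) % d' = 0 ∧ ((d * q + (b - b')) / d').Prime)).card : ℝ) := by
  have h1 : ∀ n ∈ Icc 1 X, ind D n b * ind D n b' =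
      if (Rp D n b ∧ Rp D n b') then 1 else 0 := by
    intro n _
    unfold ind
    by_cases h2 : Rp D n b
    · by_cases h3 : Rp D n b'
      · rw [if_pos h2, if_pos h3, if_pos ⟨h2, h3⟩, mul_one]
      · rw [if_neg h3, if_neg (fun h : Rp D n b ∧ Rp D n b' => h3 h.2), mul_zero]
    · rw [if_neg h2, if_neg (fun h : Rp D n b ∧ Rp D n b' => h2 h.1), zero_mul]
  rw [sum_congr rfl h1]
  have h2 : ∑ n ∈ Icc 1 X, (if (Rp D n b ∧ Rp D n b') then (1 : ℝ) else 0) =
      (((Icc 1 X).filter (fun n => Rp D n b ∧ Rp D n b')).card : ℝ) := by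
    rw [card_filter]
    push_cast
    rfl
  rw [h2]
  have h3 : ((Icc 1 X).filter (fun n => Rp D n b ∧ Rp D n b')).card ≤
      ∑ d ∈ OD D, ((Icc 1 (2 * X / d)).filter (fun q => q.Prime ∧ ∃ d' ∈ Icc 1 w,
        (d * q + (b - b')) % d' = 0 ∧ ((d * q + (b - b')) / d').Prime)).card := by
    have h4 : (Icc 1 X).filter (fun n => Rp D n b ∧ Rp D n b') ⊆
        (OD D).biUnion (fun d => ((Icc 1 (2 * X / d)).filter (fun q => q.Prime ∧
          ∃ d' ∈ Icc 1 w, (d * q + (b - b')) % d' = 0 ∧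
          ((d * q + (b - b')) / d').Prime)).image (fun q => (b + d * q) / 2)) := by
      intro n hn
      obtain ⟨hn1, ⟨d, hd, q, hq, hDq, h5⟩, ⟨d', hd', q', hq', hDq', h6⟩⟩ := mem_filter.1 hn
      obtain ⟨hn2, hn3⟩ := mem_Icc.1 hn1
      obtain ⟨⟨hd1, hd2⟩, -⟩ := mem_OD.1 hd
      obtain ⟨⟨hd1', hd2'⟩, -⟩ := mem_OD.1 hd'
      rw [mem_biUnion]
      refine ⟨d, hd, mem_image.2 ⟨q, mem_filter.2 ⟨mem_Icc.2 ⟨hq.one_lt.le, ?_⟩, hq, d',
        mem_Icc.2 ⟨hd1', hd2'.trans hDw⟩, ?_⟩, ?_⟩⟩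
      · rw [Nat.le_div_iff_mul_le hd1]
        have h7 : q * d = d * q := mul_comm _ _
        omega
      · have h7 : d * q + (b - b') = d' * q' := by omega
        rw [h7]
        refine ⟨Nat.mul_mod_right _ _, ?_⟩
        rw [Nat.mul_div_cancel_left _ hd1']
        exact hq'
      · show (b + d * q) / 2 = n
        omega
    refine (card_le_card h4).trans (card_biUnion_le.trans ?_)
    exact sum_le_sum fun d _ => card_image_le
  exact_mod_cast h3

private theorem Sw_nonneg (w h : ℕ) : 0 ≤ Sw w h := by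
  unfold Sw
  refine prod_nonneg fun p hp => ?_
  have hpp : p.Prime := by
    rcases mem_union.1 hp with h1 | h1
    · exact (mem_PR.1 h1).2
    · exact Nat.prime_of_mem_primeFactors h1
  have h2 : (2 : ℝ) ≤ p := by exact_mod_cast hpp.two_le
  have h3 : (1 : ℝ) / p ≤ 1 := by
    rw [div_le_one (by linarith)]
    linarith
  exact inv_nonneg.2 (by linarith)

private theorem ev_logpow (k : ℕ) : ∀ᶠ X : ℕ in Filter.atTop, (Real.log (X : ℝ)) ^ k ≤ X := by
  have h := (Real.tendsto_pow_log_div_mul_add_atTop 1 0 k one_ne_zero).comp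
    (tendsto_natCast_atTop_atTop (R := ℝ))
  have h2 := h.eventually (gt_mem_nhds one_pos)
  filter_upwards [h2, Filter.eventually_ge_atTop 1] with X hX hX1
  have hXpos : (0 : ℝ) < X := by exact_mod_cast hX1
  have h3 : (Real.log (X : ℝ)) ^ k / (1 * (X : ℝ) + 0) < 1 := hX
  rw [one_mul, add_zero, div_lt_iff₀ hXpos, one_mul] at h3
  exact h3.le

theorem second_moment : ∃ C : ℝ, 0 < C ∧ ∃ X₀ : ℕ, ∀ X w D : ℕ, X₀ ≤ X → 2 ≤ w → 1 ≤ D → D ≤ w →
    (w : ℝ) ≤ Real.log X → ∀ Q : Finset ℕ, Q ⊆ Icc 1 X →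
    ∑ n ∈ Icc 1 X, (rn D Q n : ℝ) ^ 2 ≤ C * ((Q.card : ℝ) * ho D * (X / Real.log X)) +
      C * (ho D * X / (Real.log X) ^ 2) *
        ∑ b ∈ Q, ∑ b' ∈ Q.filter (fun b' => b' < b), Sw w (b - b') := by
  obtain ⟨C₁, hC₁, hcs⟩ := cof_sieve
  obtain ⟨X₁, hX₁⟩ := first_upper
  obtain ⟨X₂, hX₂⟩ := Filter.eventually_atTop.1 ((ev_logpow 33).and (ev_logpow 2))
  obtain ⟨X₃, hX₃⟩ := Filter.eventually_atTop.1
    ((Real.tendsto_log_atTop.comp (tendsto_natCast_atTop_atTop (R := ℝ))).eventually_ge_atTop 2)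
  refine ⟨40 + 16 * C₁, by positivity, max X₁ (max X₂ (max X₃ 1)), ?_⟩
  intro X w D hX hw hD hDw hwX Q hQ
  have hXa : X₁ ≤ X := (le_max_left _ _).trans hX
  have hXb : X₂ ≤ X := ((le_max_left _ _).trans (le_max_right _ _)).trans hX
  have hXc : X₃ ≤ X :=
    (((le_max_left _ _).trans (le_max_right _ _)).trans (le_max_right _ _)).trans hX
  have hXd : 1 ≤ X :=
    (((le_max_right _ _).trans (le_max_right _ _)).trans (le_max_right _ _)).trans hX
  obtain ⟨k1, k2⟩ := hX₂ X hXb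
  have k3 : 2 ≤ Real.log (X : ℝ) := hX₃ X hXc
  have hXr : (0 : ℝ) < X := by exact_mod_cast hXd
  have hfu := hX₁ X D hXa hD (le_trans (by exact_mod_cast hDw) hwX) Q hQ
  obtain ⟨L, hL⟩ : ∃ L : ℝ, L = Real.log (X : ℝ) := ⟨_, rfl⟩
  rw [← hL] at k1 k2 k3 hwX hfu ⊢
  have hL0 : 0 < L := by linarith
  have hho : 0 ≤ ho D := by
    unfold ho
    exact sum_nonneg fun d _ => by positivity
  -- one pair
  have hpair : ∀ b ∈ Q, ∀ b' ∈ Q.filter (fun b' => b' < b),
      ∑ n ∈ Icc 1 X, ind D n b * ind D n b' ≤ 8 * C₁ * (ho D * X / L ^ 2) * Sw w (b - b') := by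
    intro b _ b' hb'
    have hlt := (mem_filter.1 hb').2
    refine (pair_le X w D b b' hD hDw hlt).trans ?_
    have h1 : ∀ d ∈ OD D, (((Icc 1 (2 * X / d)).filter (fun q => q.Prime ∧ ∃ d' ∈ Icc 1 w,
        (d * q + (b - b')) % d' = 0 ∧ ((d * q + (b - b')) / d').Prime)).card : ℝ) ≤
        8 * C₁ * (X / L ^ 2) * Sw w (b - b') * (1 / (d : ℝ)) := by
      intro d hd
      obtain ⟨⟨hd1, hd2⟩, -⟩ := mem_OD.1 hd
      have hdr : (0 : ℝ) < d := by exact_mod_cast hd1
      have hdL : (d : ℝ) ≤ L := by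
        have h2 : (d : ℝ) ≤ w := by exact_mod_cast hd2.trans hDw
        linarith
      obtain ⟨K, hK⟩ : ∃ K, K = 2 * X / d := ⟨_, rfl⟩
      rw [← hK]
      have hK1 : (K : ℝ) ≤ 2 * X / d := by
        rw [hK]
        have := Nat.cast_div_le (m := 2 * X) (n := d) (α := ℝ)
        push_cast at this
        exact this
      have hXdge : (L : ℝ) ≤ X / d := by
        rw [le_div_iff₀ hdr]
        calc L * d ≤ L * L := mul_le_mul_of_nonneg_left hdL hL0.le
          _ = L ^ 2 := by ring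
          _ ≤ X := k2
      have hK2 : (X : ℝ) / d ≤ K := by
        have h2 := Nat.lt_div_mul_add (a := 2 * X) (b := d) hd1
        rw [← hK] at h2
        have h3 : (2 : ℝ) * X < K * d + d := by exact_mod_cast h2
        have h4 : 2 * (X : ℝ) / d < K + 1 := by
          rw [div_lt_iff₀ hdr]
          linarith
        have h5 : 2 * (X : ℝ) / d = X / d + X / d := by ring
        linarith
      have hKX : (X : ℝ) / L ≤ K := by
        refine le_trans ?_ hK2
        exact div_le_div_of_nonneg_left hXr.le hdr hdL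
      have hK0 : (0 : ℝ) < K := lt_of_lt_of_le (by positivity) hKX
      have hK22 : 2 ≤ K := by
        have : (2 : ℝ) ≤ K := by linarith
        exact_mod_cast this
      have hw32 : (w : ℝ) ^ 32 ≤ K := by
        calc (w : ℝ) ^ 32 ≤ L ^ 32 := pow_le_pow_left₀ (Nat.cast_nonneg w) hwX 32
          _ ≤ X / L := by
              rw [le_div_iff₀ hL0]
              have e1 : L ^ 32 * L = L ^ 33 := by ring
              rw [e1]
              exact k1
          _ ≤ K := hKX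
      have hlogK : L / 2 ≤ Real.log K := by
        have h2 : Real.log ((X : ℝ) / L) ≤ Real.log K := Real.log_le_log (by positivity) hKX
        rw [Real.log_div hXr.ne' hL0.ne', ← hL] at h2
        have h3 : 2 * Real.log L ≤ L := by
          have h4 := Real.log_le_log (by positivity) k2
          rw [Real.log_pow, ← hL] at h4
          push_cast at h4
          exact h4
        linarith
      have hmain := hcs w d (b - b') K hw hd1 (hd2.trans hDw) (by omega) hK22 hw32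
      refine hmain.trans ?_
      have hS := Sw_nonneg w (b - b')
      have hlog2 : (L / 2) ^ 2 ≤ (Real.log K) ^ 2 := pow_le_pow_left₀ (by positivity) hlogK 2
      calc C₁ * Sw w (b - b') * K / (Real.log K) ^ 2
          ≤ C₁ * Sw w (b - b') * (2 * X / d) / (L / 2) ^ 2 := by
            apply div_le_div₀ (by positivity) _ (by positivity) hlog2
            exact mul_le_mul_of_nonneg_left hK1 (mul_nonneg hC₁.le hS)
        _ = 8 * C₁ * (X / L ^ 2) * Sw w (b - b') * (1 / (d : ℝ)) := by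
            field_simp
            ring
    refine (sum_le_sum h1).trans (le_of_eq ?_)
    rw [← mul_sum]
    unfold ho
    ring
  have hsq : ∑ n ∈ Icc 1 X, (rn D Q n : ℝ) ^ 2 = ∑ n ∈ Icc 1 X, (rn D Q n : ℝ) +
      2 * ∑ b ∈ Q, ∑ b' ∈ Q.filter (fun b' => b' < b),
        ∑ n ∈ Icc 1 X, ind D n b * ind D n b' := by
    rw [sum_congr rfl fun n _ => rn_sq D Q n, sum_add_distrib, ← mul_sum]
    congr 2
    rw [sum_comm]
    exact sum_congr rfl fun b _ => sum_comm
  have hoff : ∑ b ∈ Q, ∑ b' ∈ Q.filter (fun b' => b' < b),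
        ∑ n ∈ Icc 1 X, ind D n b * ind D n b' ≤
      8 * C₁ * (ho D * X / L ^ 2) *
        ∑ b ∈ Q, ∑ b' ∈ Q.filter (fun b' => b' < b), Sw w (b - b') := by
    rw [mul_sum]
    refine sum_le_sum fun b hb => ?_
    rw [mul_sum]
    exact sum_le_sum fun b' hb' => hpair b hb b' hb'
  have hT0 : 0 ≤ ∑ b ∈ Q, ∑ b' ∈ Q.filter (fun b' => b' < b), Sw w (b - b') :=
    sum_nonneg fun _ _ => sum_nonneg fun _ _ => Sw_nonneg _ _
  obtain ⟨T, hT⟩ : ∃ T, T = ∑ b ∈ Q, ∑ b' ∈ Q.filter (fun b' => b' < b), Sw w (b - b') :=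
    ⟨_, rfl⟩
  rw [← hT] at hoff hT0 ⊢
  rw [hsq]
  have h1 : 0 ≤ (Q.card : ℝ) * ho D * (X / L) := by positivity
  have h2 : 0 ≤ ho D * X / L ^ 2 * T := by positivity
  have h3 : 0 ≤ C₁ * ((Q.card : ℝ) * ho D * (X / L)) := by positivity
  calc ∑ n ∈ Icc 1 X, (rn D Q n : ℝ) + 2 * ∑ b ∈ Q, ∑ b' ∈ Q.filter (fun b' => b' < b),
        ∑ n ∈ Icc 1 X, ind D n b * ind D n b'
      ≤ 40 * ((Q.card : ℝ) * ho D * (X / L)) + 2 * (8 * C₁ * (ho D * X / L ^ 2) * T) := by
        linarith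
    _ ≤ (40 + 16 * C₁) * ((Q.card : ℝ) * ho D * (X / L)) +
        (40 + 16 * C₁) * (ho D * X / L ^ 2) * T := by
        nlinarith

end Pool.Agent.Lib.MP_5d7b92_nt.SS
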