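import Pool.Agent.Lib.MP_5d7b92_nt.SS.Defs

/-!
# SA: the average of Sw over differences

PROOF. Copy of `Sieve.singular_average` (Sieve/SingularAverage.lean) with two changes. (1) density (log Y)^(-K) instead of c (log Y)^(-2): Y ≤ M l1^K, and l1^(K + 7) 3^(-z) ≤ 1 for Y large
(z = ⌊(loglog Y)²⌋ beats (K+7) loglog Y). (2) `Sw w d` instead of d/φ(d), w ≤ z: the pointwise bound `div_totient_le_split` holds with the same right side and Y² in place of Y: its proof splits the primes into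
S1 (≤ z: ALL primes ≤ z are allowed in the bound CM log z), S2 (mid), S3 (> L); the primes ≤ w all lie in S1. Either copy that proof, or apply it to D = d · primorial w ≤ Y² (D/φ(D) = Sw w d:
`Sieve.div_totient_eq_prod_inv` and primeFactors (d · primorial w) = PR w ∪ primeFactors d; primorial w ≤ 4^w ≤ Y; D.primeFactors ∩ midPrimes z L = d.primeFactors ∩ midPrimes z L since w ≤ z), with
l = 2 log Y.
-/

open Finset

namespace Pool.Agent.Lib.MP_5d7b92_nt.SS

open Pool.Agent.Lib.Sieve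

private theorem Sw_eq (w d : ℕ) (hd : 1 ≤ d) :
    ((d * primorial w : ℕ) : ℝ) / (Nat.totient (d * primorial w) : ℝ) = Sw w d := by
  have h0 : d * primorial w ≠ 0 := Nat.mul_ne_zero (by omega) (primorial_ne_zero w)
  rw [div_totient_eq_prod_inv _ h0]
  unfold Sw
  have h1 : (d * primorial w).primeFactors = PR w ∪ d.primeFactors := by
    rw [Nat.primeFactors_mul (by omega) (primorial_ne_zero w), union_comm]
    congr 1
    ext p
    rw [primeFactors_primorial, Nat.mem_primesLE, mem_PR]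
  rw [h1]

private theorem pointwise (CM : ℝ) (hM : ∀ z : ℕ, 2 ≤ z →
    ∏ p ∈ (Finset.Icc 1 z).filter Nat.Prime, (1 - (1 : ℝ) / p)⁻¹ ≤ CM * Real.log z)
    (d Y z L w : ℕ) (hd : 1 ≤ d) (hdY : d ≤ Y) (hY : 2 ≤ Y) (hz : 2 ≤ z) (hwz : w ≤ z)
    (hwY : primorial w ≤ Y) (l : ℝ) (hl : 2 ≤ l)
    (hlY : 2 * Real.log Y ≤ l) (hL : ∀ p : ℕ, L < p → l ^ 3 ≤ p) :
    Sw w d ≤ CM * Real.log z * Real.exp 3
      + CM * l * ((3 : ℝ) ^ z)⁻¹ * (3 : ℝ) ^ (d.primeFactors ∩ midPrimes z L).card := by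
  have h1 : d * primorial w ≤ Y ^ 2 := by
    rw [sq]
    exact Nat.mul_le_mul hdY hwY
  have h2 : 1 ≤ d * primorial w := Nat.mul_pos hd (primorial_pos w)
  have h3 : 2 ≤ Y ^ 2 := by nlinarith
  have h4 : Real.log ((Y ^ 2 : ℕ) : ℝ) ≤ l := by
    push_cast
    rw [Real.log_pow]
    push_cast
    exact hlY
  have h5 := div_totient_le_split CM hM (d * primorial w) (Y ^ 2) z L h2 h1 h3 hz l hl h4 hL
  rw [Sw_eq w d hd] at h5
  have h6 : (d * primorial w).primeFactors ∩ midPrimes z L = d.primeFactors ∩ midPrimes z L := by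
    ext p
    rw [mem_inter, mem_inter]
    refine and_congr_left fun h7 => ?_
    unfold midPrimes at h7
    obtain ⟨h8, h9⟩ := mem_filter.1 h7
    have h10 := (mem_Ioc.1 h8).1
    rw [Nat.primeFactors_mul (by omega) (primorial_ne_zero w), mem_union]
    constructor
    · rintro (h11 | h11)
      · exact h11
      · exfalso
        rw [primeFactors_primorial, Nat.mem_primesLE] at h11
        omega
    · intro h11
      exact Or.inl h11
  rw [h6] at h5
  exact h5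

theorem sing_avg (K : ℕ) : ∃ C : ℝ, 0 < C ∧ ∃ Y₀ : ℕ, ∀ Y : ℕ, Y₀ ≤ Y → ∀ w : ℕ,
    (w : ℝ) ≤ Real.log (Real.log Y) → ∀ Q : Finset ℕ, Q ⊆ Icc 1 Y →
    Y / (Real.log Y) ^ K ≤ (Q.card : ℝ) →
    ∑ b ∈ Q, ∑ b' ∈ Q.filter (fun b' => b' < b), Sw w (b - b') ≤
      C * (Q.card : ℝ) ^ 2 * Real.log (Real.log (Real.log Y)) := by
  obtain ⟨CM, hCM, hM⟩ := mertens_product_upper
  have t1 : Filter.Tendsto (fun X : ℕ => Real.log (X : ℝ)) Filter.atTop Filter.atTop :=
    Real.tendsto_log_atTop.comp tendsto_natCast_atTop_atTop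
  have t2 : Filter.Tendsto (fun X : ℕ => Real.log (Real.log (X : ℝ))) Filter.atTop Filter.atTop :=
    Real.tendsto_log_atTop.comp t1
  have t3 : Filter.Tendsto (fun X : ℕ => Real.log (Real.log (Real.log (X : ℝ)))) Filter.atTop
      Filter.atTop := Real.tendsto_log_atTop.comp t2
  have tp : ∀ᶠ X : ℕ in Filter.atTop, (Real.log (X : ℝ)) ^ 2 ≤ X := by
    have h := (Real.tendsto_pow_log_div_mul_add_atTop 1 0 2 one_ne_zero).comp
      (tendsto_natCast_atTop_atTop (R := ℝ))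
    filter_upwards [h.eventually (gt_mem_nhds one_pos), Filter.eventually_ge_atTop 1] with X hX hX1
    have hXpos : (0 : ℝ) < X := by exact_mod_cast hX1
    have h3 : (Real.log (X : ℝ)) ^ 2 / (1 * (X : ℝ) + 0) < 1 := hX
    rw [one_mul, add_zero, div_lt_iff₀ hXpos, one_mul] at h3
    exact h3.le
  obtain ⟨Y0, hY0⟩ := Filter.eventually_atTop.mp ((Filter.eventually_ge_atTop 2).and
    ((t1.eventually_ge_atTop 2).and ((t2.eventually_ge_atTop (K + 20)).and
      ((t3.eventually_ge_atTop 1).and tp))))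
  refine ⟨2 * CM * Real.exp 3 + CM * Real.exp 2, by positivity, Y0,
    fun Y hY w hw Q hQ hcard => ?_⟩
  obtain ⟨hY2, hl1, hl2, hl3, hYp⟩ := hY0 Y hY
  obtain ⟨l1, hl1def⟩ : ∃ l1 : ℝ, l1 = Real.log (Y : ℝ) := ⟨_, rfl⟩
  rw [← hl1def] at hl1 hl2 hl3 hYp hw hcard ⊢
  obtain ⟨l2, hl2def⟩ : ∃ l2 : ℝ, l2 = Real.log l1 := ⟨_, rfl⟩
  rw [← hl2def] at hl2 hl3 hw ⊢
  obtain ⟨l3, hl3def⟩ : ∃ l3 : ℝ, l3 = Real.log l2 := ⟨_, rfl⟩
  rw [← hl3def] at hl3 ⊢
  have hK0 : (0 : ℝ) ≤ K := Nat.cast_nonneg K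
  have hl20' : 20 ≤ l2 := by linarith
  have hl10 : 0 < l1 := by linarith
  have hl20 : 0 < l2 := by linarith
  have hYr : (0 : ℝ) < Y := by exact_mod_cast (by omega : 0 < Y)
  obtain ⟨l, hldef⟩ : ∃ l : ℝ, l = 2 * l1 := ⟨_, rfl⟩
  have hl0 : 0 < l := by
    rw [hldef]
    positivity
  obtain ⟨z, hz⟩ : ∃ z : ℕ, z = ⌊l2 ^ 2⌋₊ := ⟨_, rfl⟩
  obtain ⟨L, hL⟩ : ∃ L : ℕ, L = ⌊l ^ 3⌋₊ := ⟨_, rfl⟩
  have hz_le : (z : ℝ) ≤ l2 ^ 2 := by
    rw [hz]
    exact Nat.floor_le (by positivity)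
  have hz_gt : l2 ^ 2 - 1 < z := by
    rw [hz]
    exact Nat.sub_one_lt_floor _
  have hwz : w ≤ z := by
    have : (w : ℝ) ≤ z := by nlinarith
    exact_mod_cast this
  have hz2 : 2 ≤ z := by
    have : (2 : ℝ) ≤ z := by nlinarith
    exact_mod_cast this
  have hL_le : (L : ℝ) ≤ l ^ 3 := by
    rw [hL]
    exact Nat.floor_le (by positivity)
  have hL1 : 1 ≤ L := by
    rw [hL, Nat.one_le_floor_iff]
    exact one_le_pow₀ (by linarith)
  have hLp : ∀ p : ℕ, L < p → l ^ 3 ≤ p := by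
    intro p hp
    have h1 := Nat.lt_floor_add_one (l ^ 3)
    rw [← hL] at h1
    have h2 : ((L + 1 : ℕ) : ℝ) ≤ p := by exact_mod_cast hp
    push_cast at h2
    linarith
  have hlogz : Real.log z ≤ 2 * l3 := by
    have hzpos : (0 : ℝ) < z := by exact_mod_cast (by omega : 0 < z)
    have := Real.log_le_log hzpos hz_le
    rw [Real.log_pow, ← hl3def] at this
    exact_mod_cast this
  have hwY : primorial w ≤ Y := by
    have h1 : (primorial w : ℝ) ≤ (4 : ℝ) ^ w := by exact_mod_cast primorial_le_four_pow w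
    have h2 : (4 : ℝ) ^ w ≤ l1 ^ 2 := by
      have h3 : (4 : ℝ) ≤ Real.exp 2 := by
        have := Real.add_one_le_exp (1 : ℝ)
        have e : Real.exp 2 = Real.exp 1 * Real.exp 1 := by rw [← Real.exp_add]; norm_num
        rw [e]
        nlinarith
      calc (4 : ℝ) ^ w ≤ (Real.exp 2) ^ w := pow_le_pow_left₀ (by norm_num) h3 _
        _ = Real.exp (w * 2) := by rw [← Real.exp_nat_mul]
        _ ≤ Real.exp (l2 * 2) := by
            apply Real.exp_le_exp.mpr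
            linarith
        _ = l1 ^ 2 := by
            rw [mul_comm, two_mul, Real.exp_add, hl2def, Real.exp_log hl10, sq]
    have h4 : (primorial w : ℝ) ≤ Y := by linarith
    exact_mod_cast h4
  obtain ⟨M, hMdef⟩ : ∃ M : ℝ, M = (Q.card : ℝ) := ⟨_, rfl⟩
  rw [← hMdef] at hcard ⊢
  have hM0 : 0 ≤ M := by
    rw [hMdef]
    exact Nat.cast_nonneg _
  obtain ⟨A, hA⟩ : ∃ A : ℝ, A = CM * Real.log z * Real.exp 3 := ⟨_, rfl⟩
  obtain ⟨B, hB⟩ : ∃ B : ℝ, B = CM * l * ((3 : ℝ) ^ z)⁻¹ := ⟨_, rfl⟩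
  have hB0 : 0 ≤ B := by
    rw [hB]
    positivity
  -- swap the order of the pair
  have hswap : ∑ b ∈ Q, ∑ b' ∈ Q.filter (fun b' => b' < b), Sw w (b - b') =
      ∑ q ∈ Q, ∑ q' ∈ Q.filter (fun q' => q < q'), Sw w (q' - q) := by
    have e1 : ∀ b ∈ Q, ∑ b' ∈ Q.filter (fun b' => b' < b), Sw w (b - b') =
        ∑ b' ∈ Q, if b' < b then Sw w (b - b') else 0 := fun b _ => sum_filter _ _
    have e2 : ∀ q ∈ Q, ∑ q' ∈ Q.filter (fun q' => q < q'), Sw w (q' - q) =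
        ∑ q' ∈ Q, if q < q' then Sw w (q' - q) else 0 := fun b _ => sum_filter _ _
    rw [sum_congr rfl e1, sum_congr rfl e2, sum_comm]
  rw [hswap]
  have hstep1 : ∑ q ∈ Q, ∑ q' ∈ Q.filter (fun q' => q < q'), Sw w (q' - q)
      ≤ ∑ q ∈ Q, ∑ q' ∈ Q.filter (fun q' => q < q'),
        (A + B * (3 : ℝ) ^ ((q' - q).primeFactors ∩ midPrimes z L).card) := by
    refine Finset.sum_le_sum fun q hq => Finset.sum_le_sum fun q' hq' => ?_
    have h1 := Finset.mem_filter.mp hq'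
    have h2 := Finset.mem_Icc.mp (hQ h1.1)
    have h3 := h1.2
    rw [hA, hB]
    exact pointwise CM hM (q' - q) Y z L w (by omega) (by omega) hY2 hz2 hwz hwY l
      (by linarith) (by rw [← hl1def, hldef]) hLp
  have hstep2 : ∑ q ∈ Q, ∑ q' ∈ Q.filter (fun q' => q < q'),
        (A + B * (3 : ℝ) ^ ((q' - q).primeFactors ∩ midPrimes z L).card)
      ≤ A * M ^ 2 + B * (M * Y * Real.exp (2 * ∑ p ∈ midPrimes z L, (1 : ℝ) / p)) := by
    simp_rw [Finset.sum_add_distrib]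
    apply add_le_add
    · have hA0 : 0 ≤ A := by
        have : 0 ≤ Real.log z := Real.log_nonneg (by exact_mod_cast (by omega : 1 ≤ z))
        rw [hA]
        positivity
      calc ∑ q ∈ Q, ∑ q' ∈ Q.filter (fun q' => q < q'), A
          ≤ ∑ q ∈ Q, M * A := by
            refine Finset.sum_le_sum fun q _ => ?_
            rw [Finset.sum_const, nsmul_eq_mul]
            refine mul_le_mul_of_nonneg_right ?_ hA0
            have h5 : (Q.filter (fun q' => q < q')).card ≤ Q.card := Finset.card_filter_le _ _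
            rw [hMdef]
            exact_mod_cast h5
        _ = A * M ^ 2 := by
            rw [Finset.sum_const, nsmul_eq_mul, ← hMdef]; ring
    · simp_rw [← Finset.mul_sum]
      rw [hMdef]
      exact mul_le_mul_of_nonneg_left (sum_three_pow_le Y Q hQ z L) hB0
  have hYM : (Y : ℝ) ≤ M * l1 ^ K := by
    rw [div_le_iff₀ (by positivity)] at hcard
    exact hcard
  have hexpL : Real.exp (2 * ∑ p ∈ midPrimes z L, (1 : ℝ) / p) ≤ Real.exp 2 * l ^ 6 := by
    have h1 := sum_midPrimes_le z L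
    have hLr : (1 : ℝ) ≤ L := by exact_mod_cast hL1
    calc Real.exp (2 * ∑ p ∈ midPrimes z L, (1 : ℝ) / p) ≤ Real.exp (2 * (1 + Real.log L)) := by
          apply Real.exp_le_exp.mpr; linarith
      _ = Real.exp 2 * (L : ℝ) ^ 2 := by
          rw [mul_add, Real.exp_add, mul_one]
          congr 1
          rw [mul_comm, Real.exp_mul, Real.exp_log (by linarith)]
          norm_num
      _ ≤ Real.exp 2 * (l ^ 3) ^ 2 := by gcongr
      _ = Real.exp 2 * l ^ 6 := by ring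
  have h3z : l ^ 7 * l1 ^ K * ((3 : ℝ) ^ z)⁻¹ ≤ 1 := by
    rw [← div_eq_mul_inv, div_le_one (by positivity)]
    have e0 : l ^ 7 * l1 ^ K ≤ l1 ^ (14 + K) := by
      have h1 : l ≤ l1 ^ 2 := by
        rw [hldef]
        nlinarith
      calc l ^ 7 * l1 ^ K ≤ (l1 ^ 2) ^ 7 * l1 ^ K := by gcongr
        _ = l1 ^ (14 + K) := by rw [← pow_mul, ← pow_add]
    have e1 : l1 ^ (14 + K) = Real.exp ((14 + K) * l2) := by
      have h1 : (((14 + K : ℕ) : ℝ)) = 14 + (K : ℝ) := by push_cast; ring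
      rw [← h1, Real.exp_nat_mul, hl2def, Real.exp_log hl10]
    have e2 : Real.exp (z : ℝ) ≤ (3 : ℝ) ^ z := by
      rw [← mul_one (z : ℝ), Real.exp_nat_mul]
      have := Real.exp_one_lt_d9
      gcongr
      linarith
    refine e0.trans ?_
    rw [e1]
    refine le_trans ?_ e2
    apply Real.exp_le_exp.mpr
    have h5 : (14 + (K : ℝ)) * l2 + 1 ≤ l2 ^ 2 := by nlinarith
    linarith
  have hBterm : B * (M * Y * Real.exp (2 * ∑ p ∈ midPrimes z L, (1 : ℝ) / p))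
      ≤ CM * Real.exp 2 * M ^ 2 := by
    calc B * (M * Y * Real.exp (2 * ∑ p ∈ midPrimes z L, (1 : ℝ) / p))
        ≤ B * (M * (M * l1 ^ K) * (Real.exp 2 * l ^ 6)) := by gcongr
      _ = CM * Real.exp 2 * M ^ 2 * (l ^ 7 * l1 ^ K * ((3 : ℝ) ^ z)⁻¹) := by
          rw [hB]; ring
      _ ≤ CM * Real.exp 2 * M ^ 2 * 1 := by gcongr
      _ = CM * Real.exp 2 * M ^ 2 := by ring
  have hAterm : A * M ^ 2 ≤ 2 * CM * Real.exp 3 * M ^ 2 * l3 := by
    rw [hA]
    calc CM * Real.log z * Real.exp 3 * M ^ 2 ≤ CM * (2 * l3) * Real.exp 3 * M ^ 2 := by gcongr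
      _ = 2 * CM * Real.exp 3 * M ^ 2 * l3 := by ring
  calc ∑ q ∈ Q, ∑ q' ∈ Q.filter (fun q' => q < q'), Sw w (q' - q)
      ≤ A * M ^ 2 + B * (M * Y * Real.exp (2 * ∑ p ∈ midPrimes z L, (1 : ℝ) / p)) :=
        hstep1.trans hstep2
    _ ≤ 2 * CM * Real.exp 3 * M ^ 2 * l3 + CM * Real.exp 2 * M ^ 2 := add_le_add hAterm hBterm
    _ ≤ 2 * CM * Real.exp 3 * M ^ 2 * l3 + CM * Real.exp 2 * M ^ 2 * l3 := by
        have : 0 ≤ CM * Real.exp 2 * M ^ 2 := by positivity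
        nlinarith
    _ = (2 * CM * Real.exp 3 + CM * Real.exp 2) * M ^ 2 * l3 := by ring

end Pool.Agent.Lib.MP_5d7b92_nt.SS
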