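import Pool.Agent.Lib.MP_5d7b92_nt.SS.M2
import Pool.Agent.Lib.MP_5d7b92_nt.SS.SA

/-!
# MA: the small scale theorem

PROOF. w = ⌊loglog Y⌋ ≥ D, w ≤ loglog Y ≤ log X. S1 = ∑ rn ≥ (1/40)|Q| ho D X/L, L = log X; S2 = ∑ rn² ≤ C|Q| ho D X/L + C (ho D X/L²) C'|Q|² T, T = log₃ Y ≥ 1 (`sing_avg` K); since |Q| ≥ L:
S2 ≤ C(1 + C') ho D X |Q|² T/L². `paley_zygmund` on Icc 1 X with θ = c₀|Q| ho D/L, c₀ = 1/80: S1² ≤ 4 #{rn ≥ θ} S2, so #{rn ≥ θ} ≥ (1/1600)|Q|² ho² X²/L² / (4 C (1+C') ho X |Q|² T/L²) = c ho D X/T.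
Finally ho D ≥ (1 + log(D+1))/4 (`ho_lower`).
-/

open Finset

namespace Pool.Agent.Lib.MP_5d7b92_nt.SS

theorem small_scale (K : ℕ) : ∃ c : ℝ, 0 < c ∧ ∃ Y₀ : ℕ, ∀ X Y D : ℕ, Y₀ ≤ Y → Y ≤ X → 1 ≤ D →
    (D : ℝ) ≤ Real.log (Real.log Y) → ∀ Q : Finset ℕ, Q ⊆ Icc 1 Y → (∀ b ∈ Q, b % 2 = 1) →
    Y / (Real.log Y) ^ K ≤ (Q.card : ℝ) → Real.log X ≤ (Q.card : ℝ) →
    c * (1 + Real.log (D + 1)) * X / Real.log (Real.log (Real.log Y)) ≤
      (((Icc 1 X).filter (fun n => c * (1 + Real.log (D + 1)) * Q.card / Real.log X ≤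
        (rn D Q n : ℝ))).card : ℝ) := by
  obtain ⟨X₁, hfl⟩ := first_lower
  obtain ⟨C₂, hC₂, X₂, hsm⟩ := second_moment
  obtain ⟨C₃, hC₃, Y₃, hsa⟩ := sing_avg K
  obtain ⟨C₄, hC₄⟩ : ∃ C₄ : ℝ, C₄ = C₂ * (1 + C₃) := ⟨_, rfl⟩
  have hC₄0 : 0 < C₄ := by
    rw [hC₄]
    positivity
  obtain ⟨c, hc0, hc1, hc2⟩ : ∃ c : ℝ, 0 < c ∧ c ≤ 1 / 320 ∧ c * (25600 * C₄) ≤ 1 := by
    refine ⟨min (1 / 320) (1 / (25600 * C₄)), by positivity, min_le_left _ _, ?_⟩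
    have h1 := min_le_right (1 / 320 : ℝ) (1 / (25600 * C₄))
    calc min (1 / 320) (1 / (25600 * C₄)) * (25600 * C₄) ≤ 1 / (25600 * C₄) * (25600 * C₄) :=
          mul_le_mul_of_nonneg_right h1 (by positivity)
      _ = 1 := by field_simp
  have tlog : Filter.Tendsto (fun X : ℕ => Real.log (X : ℝ)) Filter.atTop Filter.atTop :=
    Real.tendsto_log_atTop.comp tendsto_natCast_atTop_atTop
  have tll : Filter.Tendsto (fun X : ℕ => Real.log (Real.log (X : ℝ))) Filter.atTop Filter.atTop :=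
    Real.tendsto_log_atTop.comp tlog
  have tlll : Filter.Tendsto (fun X : ℕ => Real.log (Real.log (Real.log (X : ℝ)))) Filter.atTop
      Filter.atTop := Real.tendsto_log_atTop.comp tll
  obtain ⟨Y₄, hY₄⟩ := Filter.eventually_atTop.1 ((tlog.eventually_ge_atTop 1).and
    ((tll.eventually_ge_atTop 2).and (tlll.eventually_ge_atTop 1)))
  refine ⟨c, hc0, max (max X₁ X₂) (max Y₃ (max Y₄ 1)), ?_⟩
  intro X Y D hY hYX hD hDY Q hQ hodd hK hL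
  have ha : X₁ ≤ Y := ((le_max_left _ _).trans (le_max_left _ _)).trans hY
  have hb : X₂ ≤ Y := ((le_max_right _ _).trans (le_max_left _ _)).trans hY
  have hc : Y₃ ≤ Y := ((le_max_left _ _).trans (le_max_right _ _)).trans hY
  have hd : Y₄ ≤ Y :=
    (((le_max_left _ _).trans (le_max_right _ _)).trans (le_max_right _ _)).trans hY
  have he : 1 ≤ Y :=
    (((le_max_right _ _).trans (le_max_right _ _)).trans (le_max_right _ _)).trans hY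
  obtain ⟨k1, k2, k3⟩ := hY₄ Y hd
  have hYr : (1 : ℝ) ≤ Y := by exact_mod_cast he
  have hYXr : (Y : ℝ) ≤ X := by exact_mod_cast hYX
  have hXr : (0 : ℝ) < X := by linarith
  have hlYX : Real.log (Y : ℝ) ≤ Real.log X := Real.log_le_log (by linarith) hYXr
  obtain ⟨w, hw⟩ : ∃ w, w = ⌊Real.log (Real.log (Y : ℝ))⌋₊ := ⟨_, rfl⟩
  have hwle : (w : ℝ) ≤ Real.log (Real.log Y) := by
    rw [hw]
    exact Nat.floor_le (by linarith)
  have hDw : D ≤ w := by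
    rw [hw]
    exact Nat.le_floor hDY
  have hw2 : 2 ≤ w := by
    rw [hw]
    exact Nat.le_floor (by exact_mod_cast k2)
  have hllY : Real.log (Real.log (Y : ℝ)) ≤ Real.log Y := by
    have := Real.log_le_sub_one_of_pos (show 0 < Real.log (Y : ℝ) by linarith)
    linarith
  have hwX : (w : ℝ) ≤ Real.log X := by linarith
  have hDX : (D : ℝ) ≤ Real.log X := by linarith
  have hQX : Q ⊆ Icc 1 X := hQ.trans (Icc_subset_Icc_right hYX)
  have hS1 := hfl X D (ha.trans hYX) hD hDX Q hQX hodd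
  have hS2 := hsm X w D (hb.trans hYX) hw2 hD hDw hwX Q hQX
  have hav := hsa Y hc w hwle Q hQ hK
  have hho := ho_lower D hD
  obtain ⟨L, hLd⟩ : ∃ L : ℝ, L = Real.log (X : ℝ) := ⟨_, rfl⟩
  obtain ⟨T, hTd⟩ : ∃ T : ℝ, T = Real.log (Real.log (Real.log (Y : ℝ))) := ⟨_, rfl⟩
  obtain ⟨h, hh⟩ : ∃ h : ℝ, h = ho D := ⟨_, rfl⟩
  obtain ⟨m, hm⟩ : ∃ m : ℝ, m = (Q.card : ℝ) := ⟨_, rfl⟩
  obtain ⟨l, hl⟩ : ∃ l : ℝ, l = 1 + Real.log ((D : ℝ) + 1) := ⟨_, rfl⟩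
  obtain ⟨A, hA⟩ : ∃ A : ℝ, A = ∑ b ∈ Q, ∑ b' ∈ Q.filter (fun b' => b' < b), Sw w (b - b') :=
    ⟨_, rfl⟩
  rw [← hLd, ← hh, ← hm] at hS1
  rw [← hLd, ← hh, ← hm, ← hA] at hS2
  rw [← hA, ← hTd, ← hm] at hav
  rw [← hTd] at k3
  rw [← hLd, ← hm] at hL
  rw [← hl, ← hh] at hho
  rw [← hl, ← hm, ← hLd, ← hTd]
  have hL0 : 0 < L := by
    rw [hLd]
    linarith
  have hm0 : 0 < m := by linarith
  have hl1 : 1 ≤ l := by
    rw [hl]
    have : 0 ≤ Real.log ((D : ℝ) + 1) := Real.log_nonneg (by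
      have : (0 : ℝ) ≤ D := Nat.cast_nonneg D
      linarith)
    linarith
  have hh0 : 0 < h := by linarith
  have hT0 : 0 < T := by linarith
  obtain ⟨θ, hθ⟩ : ∃ θ : ℝ, θ = c * l * m / L := ⟨_, rfl⟩
  rw [← hθ]
  have hθ2 : 2 * (θ * ((Icc 1 X).card : ℝ)) ≤ ∑ n ∈ Icc 1 X, (rn D Q n : ℝ) := by
    refine le_trans ?_ hS1
    rw [Nat.card_Icc, Nat.add_sub_cancel, hθ]
    have h1 : l ≤ 4 * h := by linarith
    calc 2 * (c * l * m / L * X) = (2 * c) * l * (m * (X / L)) := by ring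
      _ ≤ (2 * (1 / 320)) * (4 * h) * (m * (X / L)) := by
          apply mul_le_mul_of_nonneg_right _ (by positivity)
          exact mul_le_mul (by linarith) h1 (by linarith) (by norm_num)
      _ = 1 / 40 * (m * h * (X / L)) := by ring
  have hPZ := paley_zygmund (Icc 1 X) (fun n => (rn D Q n : ℝ))
    (fun n _ => Nat.cast_nonneg _) θ hθ2
  obtain ⟨N, hN⟩ : ∃ N : ℝ, N = (((Icc 1 X).filter (fun n => θ ≤ (rn D Q n : ℝ))).card : ℝ) :=
    ⟨_, rfl⟩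
  obtain ⟨S, hS⟩ : ∃ S : ℝ, S = ∑ n ∈ Icc 1 X, (rn D Q n : ℝ) := ⟨_, rfl⟩
  obtain ⟨S', hS'⟩ : ∃ S' : ℝ, S' = ∑ n ∈ Icc 1 X, (rn D Q n : ℝ) ^ 2 := ⟨_, rfl⟩
  rw [← hN, ← hS, ← hS'] at hPZ
  rw [← hN]
  rw [← hS] at hS1
  rw [← hS'] at hS2
  have hN0 : 0 ≤ N := by
    rw [hN]
    exact Nat.cast_nonneg _
  have hS'le : S' ≤ C₄ * (h * X * m ^ 2 * T / L ^ 2) := by
    have e1 : m * h * (X / L) ≤ h * X * m ^ 2 * T / L ^ 2 := by
      have e2 : m * h * (X / L) = h * X * m * L / L ^ 2 := by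
        field_simp
      rw [e2]
      apply div_le_div_of_nonneg_right _ (by positivity)
      calc h * X * m * L ≤ h * X * m * (m * T) := by
            apply mul_le_mul_of_nonneg_left _ (by positivity)
            nlinarith
        _ = h * X * m ^ 2 * T := by ring
    have e3 : h * X / L ^ 2 * A ≤ C₃ * (h * X * m ^ 2 * T / L ^ 2) := by
      calc h * X / L ^ 2 * A ≤ h * X / L ^ 2 * (C₃ * m ^ 2 * T) :=
            mul_le_mul_of_nonneg_left hav (by positivity)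
        _ = C₃ * (h * X * m ^ 2 * T / L ^ 2) := by ring
    calc S' ≤ C₂ * (m * h * (X / L)) + C₂ * (h * X / L ^ 2) * A := hS2
      _ = C₂ * (m * h * (X / L)) + C₂ * (h * X / L ^ 2 * A) := by ring
      _ ≤ C₂ * (h * X * m ^ 2 * T / L ^ 2) + C₂ * (C₃ * (h * X * m ^ 2 * T / L ^ 2)) :=
          add_le_add (mul_le_mul_of_nonneg_left e1 hC₂.le) (mul_le_mul_of_nonneg_left e3 hC₂.le)
      _ = C₄ * (h * X * m ^ 2 * T / L ^ 2) := by
          rw [hC₄]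
          ring
  have hmain : (1 / 40 * (m * h * (X / L))) ^ 2 ≤ 4 * N * (C₄ * (h * X * m ^ 2 * T / L ^ 2)) := by
    calc (1 / 40 * (m * h * (X / L))) ^ 2 ≤ S ^ 2 := pow_le_pow_left₀ (by positivity) hS1 2
      _ ≤ 4 * N * S' := hPZ
      _ ≤ _ := mul_le_mul_of_nonneg_left hS'le (by positivity)
  have hfin : h * X ≤ 6400 * C₄ * (N * T) := by
    have e1 : (1 / 40 * (m * h * (X / L))) ^ 2 = (h * X) * (h * X * m ^ 2 / L ^ 2) / 1600 := by ring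
    have e2 : 4 * N * (C₄ * (h * X * m ^ 2 * T / L ^ 2)) =
        (4 * C₄ * (N * T)) * (h * X * m ^ 2 / L ^ 2) := by ring
    rw [e1, e2] at hmain
    have hpos : 0 < h * X * m ^ 2 / L ^ 2 := by positivity
    have e3 : (h * X) * (h * X * m ^ 2 / L ^ 2) ≤
        (6400 * C₄ * (N * T)) * (h * X * m ^ 2 / L ^ 2) := by linarith
    exact le_of_mul_le_mul_right e3 hpos
  rw [div_le_iff₀ hT0]
  have h1 : l ≤ 4 * h := by linarith
  calc c * l * X ≤ c * (4 * h) * X := by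
        apply mul_le_mul_of_nonneg_right _ hXr.le
        exact mul_le_mul_of_nonneg_left h1 hc0.le
    _ = 4 * c * (h * X) := by ring
    _ ≤ 4 * c * (6400 * C₄ * (N * T)) := mul_le_mul_of_nonneg_left hfin (by positivity)
    _ = (c * (25600 * C₄)) * (N * T) := by ring
    _ ≤ 1 * (N * T) := mul_le_mul_of_nonneg_right hc2 (by positivity)
    _ = N * T := one_mul _

end Pool.Agent.Lib.MP_5d7b92_nt.SS
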