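import Pool.Agent.Lib.MP_5d7b92_nt.SS.MA

/-!
# PJ: the iterated prime-indexed primes at the small scale

PROOF. Q = {p ∈ [1,Y] : PI j p, p odd}: #Q ≥ #(PI j ∩ [1,Y]) - 1 ≥ (1/4) Y/(log Y)^(j+1) for Y large (`PI_asymp`, SW/SC/PIA), ≥ Y/(log Y)^(j+2). If Y ≥ C log X (loglog X)^(j+1), C large, then
(1/4) Y/(log Y)^(j+1) ≥ log X (`PJ_growth`). `small_scale` (j + 2); #Q/log X ≥ (1/4) Y/((log Y)^(j+1) log X).
-/

open Finset Filter Topology

namespace Pool.Agent.Lib.MP_5d7b92_nt.SS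

theorem PJ_growth (m : ℕ) (K : ℝ) (hK : 0 < K) :
    ∃ C : ℝ, 1 ≤ C ∧ ∃ X₀ : ℕ, ∀ X Y : ℕ, X₀ ≤ X →
      C * Real.log X * (Real.log (Real.log X)) ^ m ≤ Y →
      K * Real.log X ≤ Y / (Real.log Y) ^ m ∧ Real.log X ≤ Y := by
  have hlo : ∀ᶠ y : ℝ in atTop, K * (Real.log y) ^ m ≤ Real.sqrt y := by
    have h1 : (fun y : ℝ => (Real.log y) ^ m) =o[atTop] fun y : ℝ => y ^ (1 / 2 : ℝ) := by
      have := isLittleO_log_rpow_rpow_atTop (m : ℝ) (show (0 : ℝ) < 1 / 2 by norm_num)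
      refine this.congr_left fun y => ?_
      rw [Real.rpow_natCast]
    have h2 := h1.bound (show 0 < 1 / K by positivity)
    filter_upwards [h2, eventually_ge_atTop 1] with y h3 h4
    rw [Real.norm_of_nonneg (pow_nonneg (Real.log_nonneg h4) m),
      Real.norm_of_nonneg (by positivity), ← Real.sqrt_eq_rpow] at h3
    calc K * (Real.log y) ^ m ≤ K * (1 / K * Real.sqrt y) := by gcongr
      _ = Real.sqrt y := by field_simp
  obtain ⟨y₁, hy₁⟩ := eventually_atTop.mp hlo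
  refine ⟨max 1 (2 ^ m * K), le_max_left _ _, ?_⟩
  have hev : ∀ᶠ X : ℕ in atTop, (1 : ℝ) < Real.log X ∧ 1 ≤ Real.log (Real.log X) ∧
      y₁ ≤ Real.log X := by
    have t1 : Tendsto (fun X : ℕ => Real.log (X : ℝ)) atTop atTop :=
      Real.tendsto_log_atTop.comp tendsto_natCast_atTop_atTop
    have t2 : Tendsto (fun X : ℕ => Real.log (Real.log (X : ℝ))) atTop atTop :=
      Real.tendsto_log_atTop.comp t1
    filter_upwards [t1.eventually_gt_atTop 1, t2.eventually_ge_atTop 1,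
      t1.eventually_ge_atTop y₁] with X h1 h2 h3
    exact ⟨h1, h2, h3⟩
  obtain ⟨X₀, hX₀⟩ := eventually_atTop.mp hev
  refine ⟨X₀, fun X Y hX hY => ?_⟩
  obtain ⟨h1, h2, h3⟩ := hX₀ X hX
  obtain ⟨L, hL⟩ : ∃ L : ℝ, L = Real.log (X : ℝ) := ⟨_, rfl⟩
  obtain ⟨C, hC⟩ : ∃ C : ℝ, C = max 1 (2 ^ m * K) := ⟨_, rfl⟩
  rw [← hL] at h1 h2 h3 hY ⊢
  rw [← hC] at hY
  have hC1 : 1 ≤ C := hC ▸ le_max_left _ _
  have hC2 : 2 ^ m * K ≤ C := hC ▸ le_max_right _ _
  have hYL : L ≤ Y := by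
    have h4 : (1 : ℝ) ≤ C * (Real.log L) ^ m := by
      have := one_le_pow₀ h2 (n := m)
      nlinarith
    have h5 : L * 1 ≤ L * (C * (Real.log L) ^ m) := mul_le_mul_of_nonneg_left h4 (by linarith)
    calc L = L * 1 := by ring
      _ ≤ L * (C * (Real.log L) ^ m) := h5
      _ = C * L * (Real.log L) ^ m := by ring
      _ ≤ Y := hY
  have hY1 : (1 : ℝ) < Y := by linarith
  have hY0 : (0 : ℝ) < Y := by linarith
  have hlogY : 0 < Real.log Y := Real.log_pos hY1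
  refine ⟨?_, hYL⟩
  rw [le_div_iff₀ (by positivity)]
  rcases le_or_gt (Y : ℝ) (L ^ 2) with hcase | hcase
  · have hlogle : Real.log Y ≤ 2 * Real.log L := by
      have := Real.log_le_log hY0 hcase
      rw [Real.log_pow] at this
      exact_mod_cast this
    have hsq : (Real.log Y) ^ m ≤ (2 * Real.log L) ^ m := pow_le_pow_left₀ hlogY.le hlogle m
    have hLL : 0 ≤ (Real.log L) ^ m := by positivity
    calc K * L * (Real.log Y) ^ m ≤ K * L * (2 * Real.log L) ^ m := by gcongr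
      _ = (2 ^ m * K) * L * (Real.log L) ^ m := by rw [mul_pow]; ring
      _ ≤ C * L * (Real.log L) ^ m := by gcongr
      _ ≤ Y := hY
  · have h6 := hy₁ Y (by linarith)
    have h7 : L ≤ Real.sqrt Y := by
      rw [← Real.sqrt_sq (by linarith : (0 : ℝ) ≤ L)]
      exact Real.sqrt_le_sqrt hcase.le
    calc K * L * (Real.log Y) ^ m = L * (K * (Real.log Y) ^ m) := by ring
      _ ≤ Real.sqrt Y * Real.sqrt Y := by
        apply mul_le_mul h7 h6 (by positivity) (Real.sqrt_nonneg _)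
      _ = Y := Real.mul_self_sqrt hY0.le

open Pool.Agent.Lib.SW in
theorem small_scale_PI (j : ℕ) : ∃ c C : ℝ, 0 < c ∧ 0 < C ∧ ∃ X₀ : ℕ, ∀ X Y D : ℕ, X₀ ≤ X → Y ≤ X →
    C * Real.log X * (Real.log (Real.log X)) ^ (j + 1) ≤ Y → 1 ≤ D →
    (D : ℝ) ≤ Real.log (Real.log Y) →
    c * (1 + Real.log (D + 1)) * X / Real.log (Real.log (Real.log Y)) ≤
      (((Icc 1 X).filter (fun n => c * (1 + Real.log (D + 1)) * Y /
        ((Real.log Y) ^ (j + 1) * Real.log X) ≤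
        (rn D ((Icc 1 Y).filter (PI j)) n : ℝ))).card : ℝ) := by
  obtain ⟨c₀, hc₀, Y₀, hss⟩ := small_scale (j + 2)
  obtain ⟨C, hC1, X₁, hgr⟩ := PJ_growth (j + 1) 4 (by norm_num)
  -- eventual conditions on Y
  have hevY : ∀ᶠ Y : ℕ in atTop, (1 / 2 : ℝ) ≤ (((Icc 1 Y).filter (PI j)).card : ℝ) *
      (Real.log Y) ^ (j + 1) / Y ∧ (4 : ℝ) ≤ Real.log Y ∧
      4 * (Real.log Y) ^ (j + 1) ≤ Real.sqrt Y ∧ Y₀ ≤ Y ∧
      0 < Real.log (Real.log (Real.log Y)) := by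
    have t1 : Tendsto (fun X : ℕ => Real.log (X : ℝ)) atTop atTop :=
      Real.tendsto_log_atTop.comp tendsto_natCast_atTop_atTop
    have t3 : Tendsto (fun X : ℕ => Real.log (Real.log (Real.log (X : ℝ)))) atTop atTop :=
      Real.tendsto_log_atTop.comp (Real.tendsto_log_atTop.comp t1)
    have hlo : ∀ᶠ y : ℝ in atTop, 4 * (Real.log y) ^ (j + 1) ≤ Real.sqrt y := by
      have h1 : (fun y : ℝ => (Real.log y) ^ (j + 1)) =o[atTop] fun y : ℝ => y ^ (1 / 2 : ℝ) := by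
        have := isLittleO_log_rpow_rpow_atTop ((j + 1 : ℕ) : ℝ) (show (0 : ℝ) < 1 / 2 by norm_num)
        refine this.congr_left fun y => ?_
        rw [Real.rpow_natCast]
      have h2 := h1.bound (show (0 : ℝ) < 1 / 4 by norm_num)
      filter_upwards [h2, eventually_ge_atTop 1] with y h3 h4
      rw [Real.norm_of_nonneg (pow_nonneg (Real.log_nonneg h4) _),
        Real.norm_of_nonneg (by positivity), ← Real.sqrt_eq_rpow] at h3
      linarith
    filter_upwards [(PI_asymp j).eventually (le_mem_nhds (show (1 / 2 : ℝ) < 1 by norm_num)),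
      t1.eventually_ge_atTop 4, tendsto_natCast_atTop_atTop.eventually hlo,
      eventually_ge_atTop Y₀, t3.eventually_gt_atTop 0] with Y h1 h2 h3 h4 h5
    exact ⟨h1, h2, h3, h4, h5⟩
  obtain ⟨Y₁, hY₁⟩ := eventually_atTop.mp hevY
  have hevX : ∀ᶠ X : ℕ in atTop, X₁ ≤ X ∧ (Y₁ : ℝ) ≤ Real.log X ∧ 0 < Real.log X := by
    have t1 : Tendsto (fun X : ℕ => Real.log (X : ℝ)) atTop atTop :=
      Real.tendsto_log_atTop.comp tendsto_natCast_atTop_atTop
    filter_upwards [eventually_ge_atTop X₁, t1.eventually_ge_atTop (Y₁ : ℝ),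
      t1.eventually_gt_atTop 0] with X h1 h2 h3
    exact ⟨h1, h2, h3⟩
  obtain ⟨X₀, hX₀⟩ := eventually_atTop.mp hevX
  refine ⟨c₀ / 4, C, by positivity, by linarith, X₀, fun X Y D hX hYX hY hD1 hD => ?_⟩
  obtain ⟨hX1, hLY1, hL0⟩ := hX₀ X hX
  obtain ⟨hg1, hg2⟩ := hgr X Y hX1 hY
  have hYY1 : Y₁ ≤ Y := by
    have : (Y₁ : ℝ) ≤ Y := by linarith
    exact_mod_cast this
  obtain ⟨k1, k2, k3, k4, k5⟩ := hY₁ Y hYY1
  have hlY0 : 0 < Real.log Y := by linarith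
  have hY0 : (0 : ℝ) < Y := by linarith
  have hY1 : (1 : ℝ) ≤ Y := by
    have : (0 : ℝ) < ((Y : ℕ) : ℝ) := hY0
    have h : 0 < Y := by exact_mod_cast this
    exact_mod_cast h
  have hpw : 0 < (Real.log Y) ^ (j + 1) := by positivity
  obtain ⟨Q₁, hQ₁⟩ : ∃ Q₁ : Finset ℕ, Q₁ = (Icc 1 Y).filter (PI j) := ⟨_, rfl⟩
  obtain ⟨Q, hQ⟩ : ∃ Q : Finset ℕ, Q = Q₁.filter (fun b => b % 2 = 1) := ⟨_, rfl⟩
  rw [← hQ₁] at k1 ⊢
  have hQ1c : (1 / 2 : ℝ) * (Y / (Real.log Y) ^ (j + 1)) ≤ (Q₁.card : ℝ) := by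
    have h : (1 / 2 : ℝ) * Y ≤ Q₁.card * (Real.log Y) ^ (j + 1) := by
      rwa [le_div_iff₀ hY0] at k1
    calc (1 / 2 : ℝ) * (Y / (Real.log Y) ^ (j + 1)) = (1 / 2 : ℝ) * Y / (Real.log Y) ^ (j + 1) := by
          ring
      _ ≤ Q₁.card := by rwa [div_le_iff₀ hpw]
  have hbig : (4 : ℝ) ≤ Y / (Real.log Y) ^ (j + 1) := by
    rw [le_div_iff₀ hpw]
    have h1 : Real.sqrt Y ≤ Y := by
      have hs : (1 : ℝ) ≤ Real.sqrt Y := by
        rw [show (1 : ℝ) = Real.sqrt 1 by simp]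
        exact Real.sqrt_le_sqrt hY1
      nlinarith [Real.mul_self_sqrt hY0.le]
    linarith
  have hsub : Q₁ ⊆ insert 2 Q := by
    intro p hp
    rw [mem_insert, hQ, mem_filter]
    have hp' := hp
    rw [hQ₁, mem_filter] at hp'
    rcases (PI_prime j p hp'.2).eq_two_or_odd with h | h
    · exact Or.inl h
    · exact Or.inr ⟨hp, h⟩
  have hQ1Q : (Q₁.card : ℝ) ≤ Q.card + 1 := by
    have := (card_le_card hsub).trans (card_insert_le 2 Q)
    exact_mod_cast this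
  have hQc : (1 / 4 : ℝ) * (Y / (Real.log Y) ^ (j + 1)) ≤ (Q.card : ℝ) := by linarith
  have hQL : Real.log X ≤ (Q.card : ℝ) := by linarith
  have hQK : (Y : ℝ) / (Real.log Y) ^ (j + 2) ≤ (Q.card : ℝ) := by
    have h : (Y : ℝ) / (Real.log Y) ^ (j + 2) ≤ (1 / 4 : ℝ) * (Y / (Real.log Y) ^ (j + 1)) := by
      rw [pow_succ (Real.log Y) (j + 1), div_le_iff₀ (by positivity)]
      have : (1 / 4 : ℝ) * (Y / (Real.log Y) ^ (j + 1)) * ((Real.log Y) ^ (j + 1) * Real.log Y) =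
          (1 / 4 : ℝ) * Y * Real.log Y := by
        field_simp
      rw [this]
      nlinarith
    linarith
  have hQsub : Q ⊆ Icc 1 Y := by
    rw [hQ, hQ₁]
    exact (filter_subset _ _).trans (filter_subset _ _)
  have hQodd : ∀ b ∈ Q, b % 2 = 1 := by
    intro b hb
    rw [hQ, mem_filter] at hb
    exact hb.2
  have hmain := hss X Y D k4 hYX hD1 hD Q hQsub hQodd hQK hQL
  have hlogD : 0 ≤ 1 + Real.log (D + 1) := by
    have : 0 ≤ Real.log ((D : ℝ) + 1) := Real.log_nonneg (by linarith [(Nat.cast_nonneg D : (0 : ℝ) ≤ D)])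
    linarith
  refine le_trans ?_ (hmain.trans ?_)
  · have hX00 : (0 : ℝ) ≤ X := Nat.cast_nonneg X
    gcongr
    linarith
  · rw [Nat.cast_le]
    apply card_le_card
    intro n hn
    rw [mem_filter] at hn ⊢
    refine ⟨hn.1, ?_⟩
    have h1 : (rn D Q n : ℝ) ≤ (rn D Q₁ n : ℝ) := by
      rw [Nat.cast_le]
      unfold rn
      classical
      exact card_le_card (filter_subset_filter _ (hQ ▸ filter_subset _ _))
    refine le_trans ?_ (hn.2.trans h1)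
    calc c₀ / 4 * (1 + Real.log (D + 1)) * Y / ((Real.log Y) ^ (j + 1) * Real.log X)
        = c₀ * (1 + Real.log (D + 1)) * ((1 / 4 : ℝ) * (Y / (Real.log Y) ^ (j + 1))) /
          Real.log X := by
          field_simp
      _ ≤ c₀ * (1 + Real.log (D + 1)) * Q.card / Real.log X := by gcongr

end Pool.Agent.Lib.MP_5d7b92_nt.SS
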