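import Pool.Agent.Lib.MP_5d7b92_nt.SS.HO
import Pool.Agent.Lib.SW.SC.PIA

/-!
# SH: the order (1 + log D)/log₃ Y is best possible

PROOF. v = ⌊loglog Y/4⌋, P = `primorial v` ≤ (log Y)^(1/2) (`LG3_four_pow`), Q = {b ∈ [1,Y] : b prime, odd, b = 1 mod P}; |Q| ≥ Y/(log Y)^2 exactly as in `LG3.sharp` (second bullet, with X, Y there := Y). Let 2n = b + d q,
d ≤ D ≤ loglog Y, q prime. (a) q ≤ v: 2n - b ≤ D v ≤ (loglog Y)², so at most |Q|(loglog Y)² ≤ Y (loglog Y)²/ (log Y)^(1/2) such n (|Q| ≤ Y/P + 1 is not needed: |Q| ≤ π(Y) ≤ 5Y/log Y) ≤ X/log₃ Y.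
(b) q > v: an odd prime l ≤ v dividing 2n - 1 divides 2n - b = d q, hence d. So e(n) := ∏_{3 ≤ l ≤ v, l | 2n-1} l divides d, e(n) ≤ D. P' = P/2 (odd part). e(n) = gcd(2n - 1, P'), it depends on n mod P' and n ↦ 2n - 1 is a bijection
mod P': for e | P' there are φ(P'/e) classes with gcd = e. #{n ≤ X : e(n) ≤ D} ≤ (X/P' + 1) ∑_{e | P', e ≤ D} φ(P'/e) ≤ 2 (X/P') φ(P') ∑_{e ≤ D, e odd squarefree} 1/φ(e), φ(P')/P' ≤ 2 φ(P)/P ≤ C/log v ≤ C'/log₃ Y (`LG3_V`,
`LG3_mertens`), ∑_{e ≤ D} μ²(e)/φ(e) ≤ C (1 + log D): μ²(e)/φ(e) = (1/e) ∏_{p | e} (1 + 1/(p-1)) = (1/e) ∑_{f | e} 1/φ(f)...; simplest: ∑_{e ≤ D} μ²(e)/φ(e) ≤ ∏_{p ≤ D} (1 + 1/(p-1)) = ∏_{p ≤ D} (1 - 1/p)^(-1) ≤ C (1 + log D)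
(`Sieve.mertens_product_upper`; D = 1: the sum is 1).
-/

open Finset

namespace Pool.Agent.Lib.MP_5d7b92_nt.SS

open Pool.Agent.Lib.SW

/-- `∏_{p ≤ D} (1 - 1/p)^(-1) ≤ C (1 + log (D + 1))` -/
private theorem SH_mertens : ∃ C : ℝ, 0 < C ∧ ∀ D : ℕ,
    ∏ p ∈ (Finset.Icc 1 D).filter Nat.Prime, (1 - (1 : ℝ) / p)⁻¹ ≤ C * (1 + Real.log (D + 1)) := by
  obtain ⟨C, hC, h⟩ := Pool.Agent.Lib.Sieve.mertens_product_upper
  refine ⟨C + 1, by linarith, fun D => ?_⟩
  have hl : 0 ≤ Real.log ((D : ℝ) + 1) := Real.log_nonneg (by linarith [(Nat.cast_nonneg D : (0 : ℝ) ≤ D)])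
  rcases lt_or_ge D 2 with hD | hD
  · have h1 : (Finset.Icc 1 D).filter Nat.Prime = ∅ := by
      refine filter_eq_empty_iff.2 fun p hp hp2 => ?_
      have := (mem_Icc.1 hp).2
      have := hp2.two_le
      omega
    rw [h1, prod_empty]
    nlinarith
  · have h1 := h D hD
    have h2 : (2 : ℝ) ≤ D := by exact_mod_cast hD
    have h3 : Real.log D ≤ Real.log ((D : ℝ) + 1) := Real.log_le_log (by linarith) (by linarith)
    have h4 : C * Real.log D ≤ C * Real.log ((D : ℝ) + 1) := mul_le_mul_of_nonneg_left h3 hC.le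
    nlinarith

private theorem SH_card (X : ℕ) (p : ℕ → Prop) (inst : DecidablePred p) (U : Finset ℕ)
    (h : ∀ n ∈ Icc 1 X, p n → n ∈ U) : (@Finset.filter ℕ p inst (Icc 1 X)).card ≤ U.card :=
  card_le_card fun n hn => h n (mem_filter.1 hn).1 (mem_filter.1 hn).2

private theorem SH_fac_pos {p : ℕ} (hp : p.Prime) : 0 < 1 - (1 : ℝ) / p := by
  have h2 : (2 : ℝ) ≤ p := by exact_mod_cast hp.two_le
  rw [sub_pos, div_lt_one (by linarith)]
  linarith

private theorem SH_V_nonneg (z : ℕ) : 0 ≤ LG3V z := by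
  unfold LG3V
  exact prod_nonneg fun p hp => (SH_fac_pos (mem_filter.1 hp).2).le

private theorem SH_totient {R z D : ℕ} (hR : R ≠ 0)
    (hf : R.primeFactors = ((range (z + 1)).filter Nat.Prime).filter (D < ·)) :
    (R.totient : ℝ) / R ≤ LG3V z *
      ∏ p ∈ (Finset.Icc 1 D).filter Nat.Prime, (1 - (1 : ℝ) / p)⁻¹ := by
  have h1 : (R.totient : ℝ) = (R : ℝ) * ∏ p ∈ R.primeFactors, (1 - (p : ℝ)⁻¹) := by
    have h3 := congrArg (fun r : ℚ => (r : ℝ)) (Nat.totient_eq_mul_prod_factors R)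
    push_cast at h3
    exact h3
  have hR0 : (R : ℝ) ≠ 0 := by exact_mod_cast hR
  rw [h1, mul_div_cancel_left₀ _ hR0, hf]
  have h2 : LG3V z = (∏ p ∈ ((range (z + 1)).filter Nat.Prime).filter (D < ·), (1 - 1 / (p : ℝ))) *
      ∏ p ∈ ((range (z + 1)).filter Nat.Prime).filter (fun p => ¬ D < p), (1 - 1 / (p : ℝ)) := by
    unfold LG3V
    exact (prod_filter_mul_prod_filter_not _ _ _).symm
  have h3 : ∏ p ∈ ((range (z + 1)).filter Nat.Prime).filter (D < ·), (1 - (p : ℝ)⁻¹) =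
      ∏ p ∈ ((range (z + 1)).filter Nat.Prime).filter (D < ·), (1 - 1 / (p : ℝ)) :=
    prod_congr rfl fun p _ => by rw [one_div]
  rw [h3, h2, mul_assoc]
  have hA : 0 ≤ ∏ p ∈ ((range (z + 1)).filter Nat.Prime).filter (D < ·), (1 - 1 / (p : ℝ)) :=
    prod_nonneg fun p hp => (SH_fac_pos (mem_filter.1 (mem_filter.1 hp).1).2).le
  refine le_mul_of_one_le_right hA ?_
  have hsub : ((range (z + 1)).filter Nat.Prime).filter (fun p => ¬ D < p) ⊆ (Finset.Icc 1 D).filter Nat.Prime := by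
    intro p hp
    obtain ⟨h4, h5⟩ := mem_filter.1 hp
    obtain ⟨h6, h7⟩ := mem_filter.1 h4
    exact mem_filter.2 ⟨mem_Icc.2 ⟨h7.one_lt.le, by omega⟩, h7⟩
  have h4 : ∏ p ∈ ((range (z + 1)).filter Nat.Prime).filter (fun p => ¬ D < p), (1 - (1 : ℝ) / p)⁻¹ ≤
      ∏ p ∈ (Finset.Icc 1 D).filter Nat.Prime, (1 - (1 : ℝ) / p)⁻¹ := by
    rw [← prod_sdiff hsub]
    refine le_mul_of_one_le_left (prod_nonneg fun p hp => ?_) ?_
    · exact (inv_pos.2 (SH_fac_pos (mem_filter.1 (mem_filter.1 hp).1).2)).le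
    · exact Finset.prod_induction _ (fun x : ℝ => 1 ≤ x) (fun a b ha hb => one_le_mul_of_one_le_of_one_le ha hb) le_rfl
        fun p hp => Pool.Agent.Lib.Sieve.one_le_fac (mem_filter.1 (mem_sdiff.1 hp).1).2
  rw [prod_inv_distrib] at h4
  have hB : 0 < ∏ p ∈ ((range (z + 1)).filter Nat.Prime).filter (fun p => ¬ D < p), (1 - 1 / (p : ℝ)) :=
    prod_pos fun p hp => SH_fac_pos (mem_filter.1 (mem_filter.1 hp).1).2
  calc (1 : ℝ) = (∏ p ∈ ((range (z + 1)).filter Nat.Prime).filter (fun p => ¬ D < p), (1 - 1 / (p : ℝ))) *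
        (∏ p ∈ ((range (z + 1)).filter Nat.Prime).filter (fun p => ¬ D < p), (1 - 1 / (p : ℝ)))⁻¹ :=
        (mul_inv_cancel₀ hB.ne').symm
    _ ≤ _ := mul_le_mul_of_nonneg_left h4 hB.le

open Classical in
theorem small_scale_sharp : ∃ C : ℝ, 0 < C ∧ ∃ Y₀ : ℕ, ∀ Y : ℕ, Y₀ ≤ Y → ∃ Q : Finset ℕ,
    Q ⊆ Icc 1 Y ∧ (∀ b ∈ Q, b.Prime ∧ b % 2 = 1) ∧ Y / (Real.log Y) ^ 2 ≤ (Q.card : ℝ) ∧
    ∀ X D : ℕ, Y ≤ X → 1 ≤ D → (D : ℝ) ≤ Real.log (Real.log Y) →
      (((Icc 1 X).filter (fun n => ∃ b ∈ Q, ∃ d ∈ Icc 1 D, ∃ q : ℕ,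
        q.Prime ∧ 2 * n = b + d * q)).card : ℝ) ≤
      C * (1 + Real.log (D + 1)) * X / Real.log (Real.log (Real.log Y)) := by
  obtain ⟨CM, hCM, hmu⟩ := SH_mertens
  obtain ⟨C, hC, hθ⟩ := theta_ap 3 1 one_pos
  have hm : ∀ᶠ X : ℕ in Filter.atTop, Real.log (Real.log (Real.log X)) *
      LG3V ⌊1 / 4 * Real.log (Real.log X)⌋₊ ≤ 2 := by
    have h1 := (LG3_mertens (1 / 4) (by norm_num)).comp LG3_loglog
    have h2 := LG3_gamma
    exact (h1.eventually_lt_const (by linarith)).mono fun X hX => hX.le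
  refine ⟨30 + 6 * CM, by positivity, ?_⟩
  obtain ⟨X₀, hX₀⟩ := Filter.eventually_atTop.1 (hm.and ((LG3_log3_ev 1).and
    ((LG3_log_ev (max 16 C)).and ((LG3_loglog_ev 8).and
      (Filter.eventually_ge_atTop 16)))))
  refine ⟨X₀, fun Y hY => ?_⟩
  obtain ⟨k1, k2, k3, k4, k5⟩ := hX₀ Y hY
  obtain ⟨L, hL⟩ : ∃ L, L = Real.log Y := ⟨_, rfl⟩
  obtain ⟨M, hM⟩ : ∃ M, M = Real.log L := ⟨_, rfl⟩
  obtain ⟨T, hT⟩ : ∃ T, T = Real.log M := ⟨_, rfl⟩
  rw [← hL, ← hM, ← hT] at k1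
  rw [← hL, ← hM, ← hT] at k2
  rw [← hL] at k3
  rw [← hL, ← hM] at k4
  have hL16 : 16 ≤ L := (le_max_left _ _).trans k3
  have hLC : C ≤ L := (le_max_right _ _).trans k3
  have hYr : (16 : ℝ) ≤ Y := by exact_mod_cast k5
  have hY0 : (0 : ℝ) < Y := by linarith
  obtain ⟨z, hz⟩ : ∃ z, z = ⌊1 / 4 * M⌋₊ := ⟨_, rfl⟩
  rw [← hz] at k1
  have hzM : (z : ℝ) ≤ 1 / 4 * M := by
    rw [hz]
    exact Nat.floor_le (by linarith)
  have hz2 : 2 ≤ z := by
    rw [hz]
    exact Nat.le_floor (by push_cast; linarith)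
  obtain ⟨W, hW⟩ : ∃ W, W = primorial z := ⟨_, rfl⟩
  have hW0 : 0 < W := by
    rw [hW]
    exact primorial_pos z
  have hW1 : (1 : ℝ) ≤ W := by exact_mod_cast hW0
  have hWL : (W : ℝ) ≤ √L := by
    have h1 := LG3_four_pow (by linarith : 0 ≤ M) hzM
    rw [← hW] at h1
    refine h1.trans (le_of_eq ?_)
    rw [Real.exp_half, hM, Real.exp_log (by linarith)]
  have hsL : √L ≤ L / 4 := by
    have h1 := Real.sq_sqrt (by linarith : 0 ≤ L)
    have h2 : 4 ≤ √L := by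
      rw [Real.le_sqrt (by norm_num) (by linarith)]
      linarith
    nlinarith
  have hφ : 0 < W.totient := Nat.totient_pos.2 hW0
  have hφ' : (0 : ℝ) < W.totient := by exact_mod_cast hφ
  have hφW : (W.totient : ℝ) ≤ W := by exact_mod_cast Nat.totient_le W
  have hpW : ∀ l : ℕ, l.Prime → l ≤ z → l ∣ W := by
    intro l hl hlz
    rw [hW, hl.dvd_primorial_iff]
    exact hlz
  refine ⟨(Icc 1 Y).filter (fun s => s.Prime ∧ s ≡ 1 [MOD W]), filter_subset _ _, ?_, ?_, ?_⟩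
  · intro s hs
    obtain ⟨-, hs1, hs2⟩ := mem_filter.1 hs
    refine ⟨hs1, ?_⟩
    have h1 : s ≡ 1 [MOD 2] := hs2.of_dvd (hpW 2 Nat.prime_two hz2)
    exact h1
  · have h1 := hθ W 1 hW0 (Nat.coprime_one_left W) Y (by linarith)
    rw [Nat.floor_natCast, Real.rpow_one] at h1
    have h3 : ∑ n ∈ (Icc 1 Y).filter (fun n => n.Prime ∧ n ≡ 1 [MOD W]), Real.log n ≤
        (((Icc 1 Y).filter (fun n => n.Prime ∧ n ≡ 1 [MOD W])).card : ℝ) * Real.log Y := by
      rw [← nsmul_eq_mul, ← sum_const]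
      refine sum_le_sum fun n hn => ?_
      obtain ⟨hn1, hn2⟩ := mem_Icc.1 (mem_filter.1 hn).1
      exact Real.log_le_log (by exact_mod_cast hn1) (by exact_mod_cast hn2)
    rw [← hL] at h1 h3 ⊢
    generalize (((Icc 1 Y).filter (fun n => n.Prime ∧ n ≡ 1 [MOD W])).card : ℝ) = c at *
    generalize ∑ n ∈ (Icc 1 Y).filter (fun n => n.Prime ∧ n ≡ 1 [MOD W]), Real.log n = A at *
    have hl0 : 0 < L := by linarith
    have h5 : (Y : ℝ) / W ≤ Y / W.totient := div_le_div_of_nonneg_left hY0.le hφ' hφW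
    have hWl : (W : ℝ) ≤ L / 2 := by linarith
    have h6 : 2 * (Y / L) ≤ (Y : ℝ) / W := by
      rw [le_div_iff₀ (by linarith)]
      calc 2 * (Y / L) * W ≤ 2 * (Y / L) * (L / 2) :=
            mul_le_mul_of_nonneg_left hWl (by positivity)
        _ = Y := by field_simp
    have h7 : C * W * Y / L ^ 3 ≤ Y / L := by
      rw [div_le_div_iff₀ (by positivity) hl0]
      have h8 : C * W ≤ L * L := mul_le_mul hLC (by linarith) (by linarith) (by linarith)
      calc C * W * Y * L ≤ (L * L) * Y * L := by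
            refine mul_le_mul_of_nonneg_right (mul_le_mul_of_nonneg_right h8 hY0.le) hl0.le
        _ = Y * L ^ 3 := by ring
    have h8 := (abs_le.1 h1).1
    have h9 : Y / L ≤ c * L := by linarith
    rw [div_le_iff₀ (by positivity)]
    rw [div_le_iff₀ hl0] at h9
    calc (Y : ℝ) ≤ c * L * L := h9
      _ = c * L ^ 2 := by ring
  · intro X D hYX hD1 hDM
    rw [← hL, ← hM] at hDM
    rw [← hL, ← hM, ← hT]
    have hYX' : (Y : ℝ) ≤ X := by exact_mod_cast hYX
    have hX0 : (0 : ℝ) < X := by linarith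
    have hD1' : (1 : ℝ) ≤ D := by exact_mod_cast hD1
    obtain ⟨R, hR⟩ : ∃ R : ℕ, R = ∏ p ∈ ((range (z + 1)).filter Nat.Prime).filter (D < ·), p := ⟨_, rfl⟩
    have hR0 : 0 < R := by
      rw [hR]
      exact prod_pos fun p hp => (mem_filter.1 (mem_filter.1 hp).1).2.pos
    have hRW : R ≤ W := by
      refine Nat.le_of_dvd hW0 ?_
      rw [hR, hW, primorial]
      refine prod_dvd_prod_of_subset _ _ _ fun p hp => ?_
      obtain ⟨h1, h2⟩ := mem_filter.1 (mem_filter.1 hp).1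
      exact Nat.mem_primesLE.2 ⟨Nat.lt_succ_iff.1 (mem_range.1 h1), h2⟩
    have hRf : R.primeFactors = ((range (z + 1)).filter Nat.Prime).filter (D < ·) := by
      rw [hR]
      exact Nat.primeFactors_prod fun p hp => (mem_filter.1 (mem_filter.1 hp).1).2
    have hcov : ∀ n ∈ Icc 1 X, (∃ b ∈ (Icc 1 Y).filter
        (fun s => s.Prime ∧ s ≡ 1 [MOD W]), ∃ d ∈ Icc 1 D, ∃ q : ℕ, q.Prime ∧ 2 * n = b + d * q) →
        n ∈ (((Icc 1 Y).filter Nat.Prime) ×ˢ (Icc 1 D ×ˢ range (z + 1))).image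
          (fun p => (p.1 + p.2.1 * p.2.2) / 2) ∪
        (Icc 1 X).filter (fun n => Nat.Coprime R (2 * n - 1)) := by
      rintro n hn1 ⟨b, hb, d, hd, q, hq, he⟩
      obtain ⟨hb1, hb2, hb3⟩ := mem_filter.1 hb
      rw [mem_union]
      by_cases hqz : q ≤ z
      · left
        refine mem_image.2 ⟨(b, d, q), mem_product.2 ⟨mem_filter.2 ⟨hb1, hb2⟩,
          mem_product.2 ⟨hd, mem_range.2 (Nat.lt_succ_of_le hqz)⟩⟩, ?_⟩
        simp only
        omega
      · right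
        refine mem_filter.2 ⟨hn1, ?_⟩
        refine Nat.Coprime.symm (Nat.coprime_of_dvd fun l hl h1 h2 => ?_)
        have h3 : l ∈ R.primeFactors := Nat.mem_primeFactors.2 ⟨hl, h2, hR0.ne'⟩
        rw [hRf] at h3
        obtain ⟨h4, h5⟩ := mem_filter.1 h3
        have h6 := mem_range.1 (mem_filter.1 h4).1
        have h7 : l ∣ b - 1 := (hpW l hl (by omega)).trans ((Nat.modEq_iff_dvd' hb2.one_lt.le).1 hb3.symm)
        have h8 : 2 * n - 1 = (b - 1) + d * q := by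
          have := hb2.one_lt
          omega
        rw [h8] at h1
        have h9 : l ∣ d * q := (Nat.dvd_add_right h7).1 h1
        obtain ⟨hd1, hd2⟩ := mem_Icc.1 hd
        rcases (Nat.Prime.dvd_mul hl).1 h9 with h10 | h10
        · have := Nat.le_of_dvd hd1 h10
          omega
        · have := (Nat.prime_dvd_prime_iff_eq hl hq).1 h10
          omega
    have hzM1 : (z : ℝ) + 1 ≤ M := by linarith
    have hT1 : (((((Icc 1 Y).filter Nat.Prime) ×ˢ (Icc 1 D ×ˢ range (z + 1))).image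
        (fun p => (p.1 + p.2.1 * p.2.2) / 2)).card : ℝ) ≤ 5 * X / L * (M * M) := by
      have h1 : ((((Icc 1 Y).filter Nat.Prime) ×ˢ (Icc 1 D ×ˢ range (z + 1))).image
          (fun p => (p.1 + p.2.1 * p.2.2) / 2)).card ≤ Nat.primeCounting Y * (D * (z + 1)) := by
        refine card_image_le.trans ?_
        rw [card_product, card_product, card_range, Nat.card_Icc, Nat.add_sub_cancel]
        refine Nat.mul_le_mul_right _ ?_
        rw [← Nat.primesLE_card_eq_primeCounting]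
        refine card_le_card fun p hp => ?_
        obtain ⟨hp1, hp2⟩ := mem_filter.1 hp
        exact Nat.mem_primesLE.mpr ⟨(mem_Icc.1 hp1).2, hp2⟩
      have h2 := MP_5d7b92_nt.primeCounting_le Y (by omega)
      rw [← hL] at h2
      have h4 : (Nat.primeCounting Y : ℝ) ≤ 5 * X / L := by
        refine h2.trans (div_le_div_of_nonneg_right ?_ (by linarith))
        linarith
      calc _ ≤ ((Nat.primeCounting Y * (D * (z + 1)) : ℕ) : ℝ) := by exact_mod_cast h1
        _ = (Nat.primeCounting Y : ℝ) * ((D : ℝ) * ((z : ℝ) + 1)) := by push_cast; ring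
        _ ≤ (5 * X / L) * (M * M) := by
            refine mul_le_mul h4 (mul_le_mul hDM hzM1 (by positivity) (by linarith)) (by positivity)
              (by positivity)
    have hT2 : (((Icc 1 X).filter (fun n => Nat.Coprime R (2 * n - 1))).card : ℝ) ≤
        3 * X * ((R.totient : ℝ) / R) := by
      have h1 : ((Icc 1 X).filter (fun n => Nat.Coprime R (2 * n - 1))).card ≤
          ((Ico 0 (0 + 2 * X)).filter (fun x => R.Coprime x)).card := by
        refine Finset.card_le_card_of_injOn (fun n => 2 * n - 1) ?_ ?_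
        · intro n hn
          obtain ⟨hn1, hn2⟩ := mem_filter.1 (Finset.mem_coe.1 hn)
          obtain ⟨hn3, hn4⟩ := mem_Icc.1 hn1
          have hlt : 2 * n - 1 < 0 + 2 * X := by omega
          exact Finset.mem_coe.2 (mem_filter.2 ⟨mem_Ico.2 ⟨Nat.zero_le _, hlt⟩, hn2⟩)
        · intro a ha b hb hab
          have ha' := mem_Icc.1 (mem_filter.1 (Finset.mem_coe.1 ha)).1
          have hb' := mem_Icc.1 (mem_filter.1 (Finset.mem_coe.1 hb)).1
          simp only at hab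
          omega
      have h2 := h1.trans (Nat.Ico_filter_coprime_le 0 (2 * X) hR0.ne')
      have h3 : (((2 * X / R : ℕ) : ℕ) : ℝ) ≤ 2 * X / R := by
        refine (Nat.cast_div_le).trans (le_of_eq ?_)
        push_cast
        ring
      have hR1 : (0 : ℝ) < R := by exact_mod_cast hR0
      have h4 : (R : ℝ) ≤ X := by
        have h5 : (R : ℝ) ≤ W := by exact_mod_cast hRW
        have h6 : L ≤ Y := by
          rw [hL]
          exact (Real.log_le_sub_one_of_pos hY0).trans (by linarith)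
        linarith
      calc _ ≤ ((R.totient * (2 * X / R + 1) : ℕ) : ℝ) := by exact_mod_cast h2
        _ = (R.totient : ℝ) * (((2 * X / R : ℕ) : ℝ) + 1) := by push_cast; ring
        _ ≤ (R.totient : ℝ) * (2 * X / R + X / R) := by
            refine mul_le_mul_of_nonneg_left (add_le_add h3 ?_) (Nat.cast_nonneg _)
            rw [one_le_div hR1]
            exact h4
        _ = 3 * X * ((R.totient : ℝ) / R) := by ring
    have hT3 : (R.totient : ℝ) / R ≤ LG3V z * (CM * (1 + Real.log (D + 1))) := by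
      refine (SH_totient hR0.ne' hRf).trans ?_
      exact mul_le_mul_of_nonneg_left (hmu D) (SH_V_nonneg z)
    have htot := (Nat.cast_le (α := ℝ)).2 (card_union_le ((((Icc 1 Y).filter Nat.Prime) ×ˢ (Icc 1 D ×ˢ range (z + 1))).image
          (fun p => (p.1 + p.2.1 * p.2.2) / 2)) ((Icc 1 X).filter (fun n => Nat.Coprime R (2 * n - 1))))
    push_cast at htot
    rw [le_div_iff₀ (by linarith)]
    have hT0 : 0 < T := by linarith
    have hlD : 0 ≤ Real.log (D + 1) := Real.log_nonneg (by linarith)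
    have hTM : T ≤ M := by
      rw [hT]
      exact (Real.log_le_sub_one_of_pos (by linarith)).trans (by linarith)
    have e1 : 5 * X / L * (M * M) * T ≤ 30 * X := by
      have h1 : M ^ 3 ≤ 6 * L := by
        have h2 := LG3_pow 3 (by linarith : (1 : ℝ) ≤ L)
        rw [← hM] at h2
        norm_num [Nat.factorial] at h2
        exact h2
      calc 5 * X / L * (M * M) * T ≤ 5 * X / L * (M * M) * M :=
            mul_le_mul_of_nonneg_left hTM (by positivity)
        _ = 5 * X / L * M ^ 3 := by ring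
        _ ≤ 5 * X / L * (6 * L) := mul_le_mul_of_nonneg_left h1 (by positivity)
        _ = 30 * X := by field_simp; ring
    have e2 : 3 * X * (LG3V z * (CM * (1 + Real.log (D + 1)))) * T ≤
        6 * CM * (1 + Real.log (D + 1)) * X := by
      calc 3 * X * (LG3V z * (CM * (1 + Real.log (D + 1)))) * T
          = 3 * X * (CM * (1 + Real.log (D + 1))) * (T * LG3V z) := by ring
        _ ≤ 3 * X * (CM * (1 + Real.log (D + 1))) * 2 :=
            mul_le_mul_of_nonneg_left k1 (by positivity)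
        _ = 6 * CM * (1 + Real.log (D + 1)) * X := by ring
    have e3 : 30 * (X : ℝ) ≤ 30 * (1 + Real.log (D + 1)) * X := by
      have : 0 ≤ Real.log (D + 1) * X := by positivity
      linarith
    have e4 : 3 * X * ((R.totient : ℝ) / R) ≤ 3 * X * (LG3V z * (CM * (1 + Real.log (D + 1)))) :=
      mul_le_mul_of_nonneg_left hT3 (by positivity)
    refine le_trans (mul_le_mul_of_nonneg_right (Nat.cast_le.2 (?_ : _ ≤ ((((Icc 1 Y).filter Nat.Prime) ×ˢ
      (Icc 1 D ×ˢ range (z + 1))).image (fun p => (p.1 + p.2.1 * p.2.2) / 2) ∪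
        (Icc 1 X).filter (fun n => Nat.Coprime R (2 * n - 1))).card)) hT0.le) ?_
    · exact SH_card _ _ _ _ hcov
    calc _ ≤ (5 * X / L * (M * M) + 3 * X * (LG3V z * (CM * (1 + Real.log (D + 1))))) * T :=
          mul_le_mul_of_nonneg_right (htot.trans (add_le_add hT1 (hT2.trans e4))) hT0.le
      _ = 5 * X / L * (M * M) * T + 3 * X * (LG3V z * (CM * (1 + Real.log (D + 1)))) * T := by ring
      _ ≤ 30 * (1 + Real.log (D + 1)) * X + 6 * CM * (1 + Real.log (D + 1)) * X := by linarith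
      _ = (30 + 6 * CM) * (1 + Real.log (D + 1)) * X := by ring

end Pool.Agent.Lib.MP_5d7b92_nt.SS
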